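import Mathlib

/-! KD Part I, section I.4: geometric double sums -/

namespace KD.Geo

open Finset

/-- `|i-j|` -/
def dd (i j : ℕ) : ℕ := (i - j) + (j - i)

lemma geo_inj {ι : Type*} (S : Finset ι) (f : ι → ℕ) (hf : Set.InjOn f S) {ρ : ℝ} (h0 : 0 ≤ ρ)
    (h1 : ρ < 1) : ∑ x ∈ S, ρ ^ f x ≤ (1 - ρ)⁻¹ := by
  classical
  rw [← Finset.sum_image (s := S) (g := f) (f := fun n => ρ ^ n) hf]
  rw [← tsum_geometric_of_lt_one h0 h1]
  exact (summable_geometric_of_lt_one h0 h1).sum_le_tsum _ (fun n _ => by positivity)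

lemma sum_dd (K i : ℕ) {ρ : ℝ} (h0 : 0 ≤ ρ) (h1 : ρ < 1) :
    ∑ j ∈ range (K + 1), ρ ^ dd i j ≤ 2 * (1 - ρ)⁻¹ := by
  rw [← Finset.sum_filter_add_sum_filter_not (range (K + 1)) (fun j => j ≤ i)]
  have a1 : ∑ j ∈ (range (K + 1)).filter (fun j => j ≤ i), ρ ^ dd i j ≤ (1 - ρ)⁻¹ := by
    apply geo_inj _ _ _ h0 h1
    intro x hx y hy hxy
    have hx := (Finset.mem_filter.mp hx).2
    have hy := (Finset.mem_filter.mp hy).2
    simp only [dd] at hxy
    omega
  have a2 : ∑ j ∈ (range (K + 1)).filter (fun j => ¬ j ≤ i), ρ ^ dd i j ≤ (1 - ρ)⁻¹ := by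
    apply geo_inj _ _ _ h0 h1
    intro x hx y hy hxy
    have hx := (Finset.mem_filter.mp hx).2
    have hy := (Finset.mem_filter.mp hy).2
    simp only [dd] at hxy
    omega
  linarith

/-- the weight of a fixed intermediate index -/
lemma sum_between (K l : ℕ) {ρ : ℝ} (h0 : 0 ≤ ρ) (h1 : ρ < 1) :
    ∑ i ∈ range (K + 1), ∑ j ∈ range (K + 1),
      (if min i j ≤ l ∧ l < max i j then ρ ^ dd i j else 0) ≤ 2 * ((1 - ρ)⁻¹ * (1 - ρ)⁻¹) := by
  have hinv : 0 ≤ (1 - ρ)⁻¹ := inv_nonneg.2 (by linarith)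
  have key : ∀ i j : ℕ, (if min i j ≤ l ∧ l < max i j then ρ ^ dd i j else 0) ≤
      (if i ≤ l then ρ ^ (l - i) else 0) * (if l < j then ρ ^ (j - l) else 0) +
      (if j ≤ l then ρ ^ (l - j) else 0) * (if l < i then ρ ^ (i - l) else 0) := by
    intro i j
    by_cases h : min i j ≤ l ∧ l < max i j
    · rw [if_pos h]
      rcases le_total i j with hij | hij
      · rw [min_eq_left hij, max_eq_right hij] at h
        rw [if_pos h.1, if_pos h.2, ← pow_add]
        have : dd i j = l - i + (j - l) := by unfold dd; omega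
        rw [this]
        have : 0 ≤ (if j ≤ l then ρ ^ (l - j) else 0) * (if l < i then ρ ^ (i - l) else 0) := by
          apply mul_nonneg <;> split_ifs <;> positivity
        linarith
      · rw [min_eq_right hij, max_eq_left hij] at h
        rw [if_pos h.1, if_pos h.2, ← pow_add]
        have : dd i j = l - j + (i - l) := by unfold dd; omega
        rw [this]
        have : 0 ≤ (if i ≤ l then ρ ^ (l - i) else 0) * (if l < j then ρ ^ (j - l) else 0) := by
          apply mul_nonneg <;> split_ifs <;> positivity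
        linarith
    · rw [if_neg h]
      apply add_nonneg <;> apply mul_nonneg <;> split_ifs <;> positivity
  have a1 : ∑ i ∈ range (K + 1), (if i ≤ l then ρ ^ (l - i) else 0) ≤ (1 - ρ)⁻¹ := by
    rw [← Finset.sum_filter]
    apply geo_inj _ _ _ h0 h1
    intro x hx y hy hxy
    have hx := (Finset.mem_filter.mp hx).2
    have hy := (Finset.mem_filter.mp hy).2
    omega
  have a2 : ∑ i ∈ range (K + 1), (if l < i then ρ ^ (i - l) else 0) ≤ (1 - ρ)⁻¹ := by
    rw [← Finset.sum_filter]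
    apply geo_inj _ _ _ h0 h1
    intro x hx y hy hxy
    have hx := (Finset.mem_filter.mp hx).2
    have hy := (Finset.mem_filter.mp hy).2
    beta_reduce at hxy
    omega
  have b1 : 0 ≤ ∑ i ∈ range (K + 1), (if i ≤ l then ρ ^ (l - i) else 0) :=
    Finset.sum_nonneg (fun i _ => by split_ifs <;> positivity)
  have b2 : 0 ≤ ∑ i ∈ range (K + 1), (if l < i then ρ ^ (i - l) else 0) :=
    Finset.sum_nonneg (fun i _ => by split_ifs <;> positivity)
  have hp := mul_le_mul a1 a2 b2 hinv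
  refine le_trans (Finset.sum_le_sum (fun i _ => Finset.sum_le_sum (fun j _ => key i j))) ?_
  simp only [Finset.sum_add_distrib]
  have e1 : ∑ i ∈ range (K + 1), ∑ j ∈ range (K + 1),
      (if i ≤ l then ρ ^ (l - i) else 0) * (if l < j then ρ ^ (j - l) else 0) =
      (∑ i ∈ range (K + 1), (if i ≤ l then ρ ^ (l - i) else 0)) *
        ∑ i ∈ range (K + 1), (if l < i then ρ ^ (i - l) else 0) := by
    rw [Finset.sum_mul_sum]
  have e2 : ∑ i ∈ range (K + 1), ∑ j ∈ range (K + 1),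
      (if j ≤ l then ρ ^ (l - j) else 0) * (if l < i then ρ ^ (i - l) else 0) =
      (∑ i ∈ range (K + 1), (if i ≤ l then ρ ^ (l - i) else 0)) *
        ∑ i ∈ range (K + 1), (if l < i then ρ ^ (i - l) else 0) := by
    rw [Finset.sum_comm, Finset.sum_mul_sum]
  rw [e1, e2]
  linarith

/-- the double sum bound -/
lemma double (K : ℕ) {ρ : ℝ} (h0 : 0 ≤ ρ) (h1 : ρ < 1) (A Δ : ℕ → ℝ) (G : ℕ → ℕ → ℝ) (Λ : ℝ)
    (hΛ : 0 ≤ Λ) (hA : ∀ i, 0 ≤ A i) (hΔ : ∀ l, 0 ≤ Δ l)
    (hG : ∀ i ≤ K, ∀ j ≤ K, G i j ≤ 2 * A i + 2 * Λ * ∑ l ∈ Ico (min i j) (max i j), Δ l) :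
    ∑ i ∈ range (K + 1), ∑ j ∈ range (K + 1), ρ ^ dd i j * G i j ≤
      4 * (1 - ρ)⁻¹ * ∑ i ∈ range (K + 1), A i +
      4 * Λ * ((1 - ρ)⁻¹ * (1 - ρ)⁻¹) * ∑ l ∈ range K, Δ l := by
  have step1 : ∑ i ∈ range (K + 1), ∑ j ∈ range (K + 1), ρ ^ dd i j * G i j ≤
      ∑ i ∈ range (K + 1), ∑ j ∈ range (K + 1), (2 * A i * ρ ^ dd i j +
        2 * Λ * ∑ l ∈ range K, Δ l * (if min i j ≤ l ∧ l < max i j then ρ ^ dd i j else 0)) := by
    refine Finset.sum_le_sum (fun i hi => Finset.sum_le_sum (fun j hj => ?_))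
    have hi' : i ≤ K := Nat.lt_succ_iff.mp (Finset.mem_range.mp hi)
    have hj' : j ≤ K := Nat.lt_succ_iff.mp (Finset.mem_range.mp hj)
    have hρ : 0 ≤ ρ ^ dd i j := by positivity
    have e : ∑ l ∈ range K, Δ l * (if min i j ≤ l ∧ l < max i j then ρ ^ dd i j else 0) =
        ρ ^ dd i j * ∑ l ∈ Ico (min i j) (max i j), Δ l := by
      rw [Finset.mul_sum]
      have hsub : Ico (min i j) (max i j) ⊆ range K := by
        intro l hl
        rw [Finset.mem_Ico] at hl
        rw [Finset.mem_range]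
        have : max i j ≤ K := max_le hi' hj'
        omega
      rw [← Finset.sum_subset hsub (f := fun l =>
        Δ l * (if min i j ≤ l ∧ l < max i j then ρ ^ dd i j else 0))]
      · refine Finset.sum_congr rfl (fun l hl => ?_)
        rw [Finset.mem_Ico] at hl
        rw [if_pos hl]; ring
      · intro l _ hl
        rw [Finset.mem_Ico] at hl
        rw [if_neg hl, mul_zero]
    rw [e]
    calc ρ ^ dd i j * G i j ≤ ρ ^ dd i j * (2 * A i + 2 * Λ * ∑ l ∈ Ico (min i j) (max i j), Δ l) :=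
          mul_le_mul_of_nonneg_left (hG i hi' j hj') hρ
      _ = _ := by ring
  refine le_trans step1 ?_
  simp only [Finset.sum_add_distrib]
  apply add_le_add
  · have : ∀ i, ∑ j ∈ range (K + 1), 2 * A i * ρ ^ dd i j ≤ 4 * (1 - ρ)⁻¹ * A i := by
      intro i
      rw [← Finset.mul_sum]
      have h3 := mul_le_mul_of_nonneg_left (sum_dd K i h0 h1)
        (show 0 ≤ 2 * A i from mul_nonneg two_pos.le (hA i))
      linarith
    rw [Finset.mul_sum]
    exact Finset.sum_le_sum (fun i _ => this i)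
  · simp only [← Finset.mul_sum]
    have e : ∑ i ∈ range (K + 1), ∑ j ∈ range (K + 1), ∑ l ∈ range K,
        Δ l * (if min i j ≤ l ∧ l < max i j then ρ ^ dd i j else 0) =
        ∑ l ∈ range K, Δ l * ∑ i ∈ range (K + 1), ∑ j ∈ range (K + 1),
          (if min i j ≤ l ∧ l < max i j then ρ ^ dd i j else 0) := by
      have : ∀ i, ∑ j ∈ range (K + 1), ∑ l ∈ range K,
          Δ l * (if min i j ≤ l ∧ l < max i j then ρ ^ dd i j else 0) =
          ∑ l ∈ range K, ∑ j ∈ range (K + 1),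
          Δ l * (if min i j ≤ l ∧ l < max i j then ρ ^ dd i j else 0) :=
        fun i => Finset.sum_comm
      simp only [this]
      rw [Finset.sum_comm]
      refine Finset.sum_congr rfl (fun l _ => ?_)
      rw [Finset.mul_sum]
      refine Finset.sum_congr rfl (fun i _ => ?_)
      rw [Finset.mul_sum]
    rw [e]
    have h4 : ∑ l ∈ range K, Δ l * ∑ i ∈ range (K + 1), ∑ j ∈ range (K + 1),
          (if min i j ≤ l ∧ l < max i j then ρ ^ dd i j else 0) ≤
        ∑ l ∈ range K, Δ l * (2 * ((1 - ρ)⁻¹ * (1 - ρ)⁻¹)) :=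
      Finset.sum_le_sum (fun l _ => mul_le_mul_of_nonneg_left (sum_between K l h0 h1) (hΔ l))
    rw [← Finset.sum_mul] at h4
    have h5 := mul_le_mul_of_nonneg_left h4 (show 0 ≤ 2 * Λ by positivity)
    linarith

end KD.Geo
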