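import Pool.Agent.Helper57.KD1.Pk
import Pool.Agent.Helper57.KD1.Geo
import Pool.Agent.Helper37.KD.DefsC

/-! KD Part I, section I.4: the coefficient error (piece E5) -/

set_option linter.unusedSectionVars false

namespace KD.E5

open Finset KD.VarL KD.Pk KD.Geo

section
variable {d : ℕ} {s c0 C0 C1 : ℝ} (E : Env d s c0 C0 C1)

/-- `D_i[b]` -/
noncomputable def DD (μ b : E.G → ℝ) (i : ℕ) : ℝ := Qf (lev E.q b i) (lev E.q μ i)

/-- `g_i[b]` -/
noncomputable def gg (μ b : E.G → ℝ) (i : ℕ) : ℝ :=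
  ∑ z, VV (E.q i) (lev E.q μ i) (lev E.q b i) z

variable {E}

lemma lev_abs_le {μ b : E.G → ℝ} {Λ : ℝ} (hb : ∀ z, |b z| ≤ Λ * μ z) {i : ℕ}
    (hi : i ≤ E.K + 1) (z : E.G) : |lev E.q b i z| ≤ Λ * lev E.q μ i z := by
  have hq : ∀ k < i, ∀ z, 0 ≤ E.q k z := fun k hk z => (E.q_pos (by omega) z).le
  have h1 := lev_mono (q := E.q) (n := i) hq (fun z => le_trans (le_abs_self _) (hb z)) z
  have h2 := lev_mono (q := E.q) (n := i) (f := fun z => (-1) * b z) hq
    (fun z => le_trans (by rw [neg_one_mul]; exact neg_le_abs _) (hb z)) z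
  rw [lev_smul] at h1 h2
  rw [lev_smul] at h2
  rw [abs_le]
  constructor
  · linarith
  · linarith

lemma domE {μ b : E.G → ℝ} (hμ : IsP μ) {Λ : ℝ} (hb : ∀ z, |b z| ≤ Λ * μ z) {i : ℕ}
    (hi : i ≤ E.K + 1) : Dom (lev E.q μ i) (lev E.q b i) where
  nn := fun z => E.u_nonneg hμ hi z
  dom := fun z hz => by
    have := lev_abs_le hb hi z
    rw [hz, mul_zero] at this
    exact abs_eq_zero.mp (le_antisymm this (abs_nonneg _))

lemma hub {μ : E.G → ℝ} (hμ : IsP μ) {i : ℕ} (hi : i ≤ E.K) (z : E.G) :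
    0 < cv (E.q i) (lev E.q μ i) z := E.u_pos hμ hi z

lemma gg_eq {μ b : E.G → ℝ} (hμ : IsP μ) {Λ : ℝ} (hb : ∀ z, |b z| ≤ Λ * μ z) {i : ℕ}
    (hi : i ≤ E.K) : gg E μ b i = DD E μ b i - DD E μ b (i + 1) :=
  sum_VV (domE hμ hb (by omega)) (hub hμ hi) (E.q_mass hi)

lemma gg_nonneg {μ b : E.G → ℝ} (hμ : IsP μ) {Λ : ℝ} (hb : ∀ z, |b z| ≤ Λ * μ z) {i : ℕ}
    (hi : i ≤ E.K) : 0 ≤ gg E μ b i :=
  Finset.sum_nonneg (fun z _ => VV_nonneg (lipE E hi) (domE hμ hb (by omega)) z)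

lemma gg_add {μ b b' : E.G → ℝ} (hμ : IsP μ) {i : ℕ} (hi : i ≤ E.K) :
    gg E μ (fun z => b z + b' z) i ≤ 2 * gg E μ b i + 2 * gg E μ b' i := by
  unfold gg
  rw [Finset.mul_sum, Finset.mul_sum, ← Finset.sum_add_distrib]
  refine Finset.sum_le_sum (fun z _ => ?_)
  unfold VV
  rw [Finset.mul_sum, Finset.mul_sum, ← Finset.sum_add_distrib]
  refine Finset.sum_le_sum (fun w _ => ?_)
  rw [lev_add, cv_add]
  simp only [add_div]
  have hw : 0 ≤ E.q i (z - w) * lev E.q μ i w :=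
    mul_nonneg (E.q_pos hi _).le (E.u_nonneg hμ (by omega) w)
  set x := lev E.q b i w / lev E.q μ i w - cv (E.q i) (lev E.q b i) z / cv (E.q i) (lev E.q μ i) z
    with hx
  set y := lev E.q b' i w / lev E.q μ i w - cv (E.q i) (lev E.q b' i) z / cv (E.q i) (lev E.q μ i) z
    with hy
  have e : lev E.q b i w / lev E.q μ i w + lev E.q b' i w / lev E.q μ i w -
      (cv (E.q i) (lev E.q b i) z / cv (E.q i) (lev E.q μ i) z +
        cv (E.q i) (lev E.q b' i) z / cv (E.q i) (lev E.q μ i) z) = x + y := by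
    rw [hx, hy]; ring
  rw [e]
  have h1 : (x + y) ^ 2 ≤ 2 * x ^ 2 + 2 * y ^ 2 := by nlinarith [sq_nonneg (x - y)]
  calc _ ≤ E.q i (z - w) * lev E.q μ i w * (2 * x ^ 2 + 2 * y ^ 2) :=
        mul_le_mul_of_nonneg_left h1 hw
    _ = _ := by ring

lemma DD_nonneg {μ b : E.G → ℝ} (hμ : IsP μ) {i : ℕ} (hi : i ≤ E.K + 1) : 0 ≤ DD E μ b i :=
  Finset.sum_nonneg (fun z _ => div_nonneg (sq_nonneg _) (E.u_nonneg hμ hi z))

lemma DD_le_zero {μ b : E.G → ℝ} (hμ : IsP μ) {Λ : ℝ} (hb : ∀ z, |b z| ≤ Λ * μ z) {i : ℕ}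
    (hi : i ≤ E.K + 1) : DD E μ b i ≤ DD E μ b 0 := by
  induction i with
  | zero => exact le_rfl
  | succ i ih =>
    have h1 := gg_eq hμ hb (i := i) (by omega)
    have h2 := gg_nonneg hμ hb (i := i) (by omega)
    have h3 := ih (by omega)
    linarith

lemma gg_le {μ b : E.G → ℝ} (hμ : IsP μ) {Λ : ℝ} (hb : ∀ z, |b z| ≤ Λ * μ z) {i : ℕ}
    (hi : i ≤ E.K) : gg E μ b i ≤ DD E μ b 0 := by
  have h1 := gg_eq hμ hb hi
  have h2 := DD_le_zero hμ hb (i := i) (by omega)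
  have h3 := DD_nonneg (b := b) hμ (i := i + 1) (by omega)
  linarith

/-- `D_0[c μ] = ∑ c² μ` -/
lemma DD_zero_mul {μ c : E.G → ℝ} : DD E μ (fun z => c z * μ z) 0 = ∑ z, c z ^ 2 * μ z := by
  unfold DD Qf
  refine Finset.sum_congr rfl (fun z _ => ?_)
  simp only [lev_zero]
  by_cases h : μ z = 0
  · rw [h]; simp
  · field_simp

lemma sum_abs_lev {f : E.G → ℝ} {i : ℕ} (hi : i ≤ E.K + 1) :
    ∑ z, |lev E.q f i z| ≤ ∑ z, |f z| := by
  have hq : ∀ k < i, ∀ z, 0 ≤ E.q k z := fun k hk z => (E.q_pos (by omega) z).le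
  rw [← sum_lev (q := E.q) (f := fun z => |f z|) (n := i) (fun k hk => E.q_mass (by omega))]
  refine Finset.sum_le_sum (fun z _ => ?_)
  have h1 := lev_mono (q := E.q) (n := i) hq (fun z => le_abs_self (f z)) z
  have h2 := lev_mono (q := E.q) (n := i) (f := fun z => (-1) * f z) (g := fun z => |f z|) hq
    (fun z => by have := neg_le_abs (f z); linarith) z
  rw [lev_smul] at h2
  beta_reduce at h2
  rw [abs_le]
  constructor
  · linarith
  · linarith

lemma DD_diff {μ b b' : E.G → ℝ} (hμ : IsP μ) {Λ : ℝ} (hΛ : 0 ≤ Λ) (hb : ∀ z, |b z| ≤ Λ * μ z)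
    (hb' : ∀ z, |b' z| ≤ Λ * μ z) {i : ℕ} (hi : i ≤ E.K + 1) :
    |DD E μ b i - DD E μ b' i| ≤ 2 * Λ * ∑ z, |b z - b' z| := by
  unfold DD Qf
  rw [← Finset.sum_sub_distrib]
  refine le_trans (Finset.abs_sum_le_sum_abs _ _) ?_
  have h1 : ∀ z, |lev E.q b i z ^ 2 / lev E.q μ i z - lev E.q b' i z ^ 2 / lev E.q μ i z| ≤
      2 * Λ * |lev E.q (fun z => b z - b' z) i z| := by
    intro z
    rw [lev_sub]
    have a1 := lev_abs_le hb hi z
    have a2 := lev_abs_le hb' hi z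
    have hu := E.u_nonneg hμ hi z
    set x := lev E.q b i z
    set y := lev E.q b' i z
    set u := lev E.q μ i z
    rcases eq_or_lt_of_le hu with h0 | h0
    · rw [← h0]; simp; positivity
    · have e : x ^ 2 / u - y ^ 2 / u = (x - y) * ((x + y) / u) := by
        field_simp
        ring
      rw [e, abs_mul, mul_comm]
      apply mul_le_mul_of_nonneg_right _ (abs_nonneg _)
      rw [abs_div, abs_of_pos h0, div_le_iff₀ h0]
      have := abs_add_le x y
      linarith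
  refine le_trans (Finset.sum_le_sum (fun z _ => h1 z)) ?_
  rw [← Finset.mul_sum]
  exact mul_le_mul_of_nonneg_left (sum_abs_lev hi) (by positivity)

end

/-- total variation along a path of indices -/
lemma abs_sub_le_Ico (f : ℕ → ℝ) (i j : ℕ) :
    |f j - f i| ≤ ∑ l ∈ Ico (min i j) (max i j), |f (l + 1) - f l| := by
  rcases le_total i j with h | h
  · rw [min_eq_left h, max_eq_right h]
    have := dist_le_Ico_sum_dist f h
    simp only [Real.dist_eq] at this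
    rw [abs_sub_comm (f j)]
    refine le_trans this (le_of_eq (Finset.sum_congr rfl (fun l _ => abs_sub_comm _ _)))
  · rw [min_eq_right h, max_eq_left h]
    have := dist_le_Ico_sum_dist f h
    simp only [Real.dist_eq] at this
    refine le_trans this (le_of_eq (Finset.sum_congr rfl (fun l _ => abs_sub_comm _ _)))

lemma cN_le {x : ℝ} {D : ℝ} (h0 : 0 ≤ x) (h1 : x ≤ D) : cN x ≤ x ^ 2 * Real.exp (4 * D) := by
  unfold cN
  have h2 : Real.exp x - 1 ≤ x * Real.exp x := by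
    have := Real.add_one_le_exp (-x)
    have h3 : Real.exp (-x) * Real.exp x = 1 := by rw [← Real.exp_add]; simp
    have h4 := Real.exp_pos x
    nlinarith
  have h5 : 0 ≤ Real.exp x - 1 := by linarith [Real.add_one_le_exp x]
  have h6 : (Real.exp x - 1) ^ 2 ≤ (x * Real.exp x) ^ 2 := pow_le_pow_left₀ h5 h2 2
  have h7 : Real.exp (2 * x) * (x * Real.exp x) ^ 2 = x ^ 2 * Real.exp (4 * x) := by
    rw [mul_pow, ← Real.exp_nat_mul]
    rw [show Real.exp (4 * x) = Real.exp (2 * x) * Real.exp ((2 : ℕ) * x) by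
      rw [← Real.exp_add]; congr 1; push_cast; ring]
    ring
  calc Real.exp (2 * x) * (Real.exp x - 1) ^ 2 ≤ Real.exp (2 * x) * (x * Real.exp x) ^ 2 :=
        mul_le_mul_of_nonneg_left h6 (Real.exp_pos _).le
    _ = x ^ 2 * Real.exp (4 * x) := h7
    _ ≤ _ := mul_le_mul_of_nonneg_left (Real.exp_le_exp.2 (by linarith)) (sq_nonneg _)

/-- scale comparison -/
lemma tim_div {s : ℝ} {j k : ℕ} (h : j ≤ k) :
    tim s k / tim s j * (2 ^ j / 2 ^ k) ^ 2 = ((2 : ℝ) ^ (2 * s - 2)) ^ (k - j) := by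
  obtain ⟨m, rfl⟩ := Nat.exists_eq_add_of_le h
  have ht := (tim_pos s j).ne'
  rw [tim_add, Nat.add_sub_cancel_left, pow_add]
  have e1 : tim s j * tim s m / tim s j = tim s m := by field_simp
  have e2 : ((2 : ℝ) ^ j / (2 ^ j * 2 ^ m)) ^ 2 = ((2 : ℝ) ^ (-2 : ℝ)) ^ m := by
    have : (2 : ℝ) ^ (-2 : ℝ) = 1 / 4 := by
      rw [Real.rpow_neg two_pos.le]; norm_num
    rw [this, div_mul_eq_div_div, div_self (by positivity), div_pow, one_pow, ← pow_mul, div_pow,
      one_pow]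
    congr 1
    rw [mul_comm, pow_mul]; norm_num
  rw [e1, e2, tim]
  rw [show (2 : ℝ) * s - 2 = 2 * s + (-2) by ring, Real.rpow_add two_pos, mul_pow]
  congr 1
  rw [Real.rpow_mul two_pos.le, Real.rpow_natCast]

lemma tim_div' {s : ℝ} {j k : ℕ} (h : k ≤ j) :
    tim s k / tim s j = ((2 : ℝ) ^ (-(2 * s))) ^ (j - k) := by
  obtain ⟨m, rfl⟩ := Nat.exists_eq_add_of_le h
  have ht := (tim_pos s k).ne'
  have ht2 := (tim_pos s m).ne'
  rw [tim_add, Nat.add_sub_cancel_left]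
  have e1 : tim s k / (tim s k * tim s m) = (tim s m)⁻¹ := by field_simp
  rw [e1, tim, ← Real.rpow_natCast, ← Real.rpow_mul two_pos.le, ← Real.rpow_neg two_pos.le]
  congr 1; ring

lemma tele (D : ℕ → ℝ) {a b : ℕ} (h : a ≤ b) : ∑ i ∈ Ico a b, (D i - D (i + 1)) = D a - D b := by
  induction b, h using Nat.le_induction with
  | base => simp
  | succ b hb ih => rw [Finset.sum_Ico_succ_top hb, ih]; ring

section
variable {d : ℕ} {s c0 C0 C1 : ℝ} {E : Env d s c0 C0 C1}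

/-- the inner sum of `E_k` -/
noncomputable def SS (E : Env d s c0 C0 C1) (μ b : E.G → ℝ) (k : ℕ) (l : E.G) : ℝ :=
  ∑ z, min (lev E.q μ (k + 1) z) (lev E.q μ (k + 1) (z + l)) *
    (lev E.q b (k + 1) (z + l) / lev E.q μ (k + 1) (z + l) -
      lev E.q b (k + 1) z / lev E.q μ (k + 1) z) ^ 2

lemma SS_near {μ b : E.G → ℝ} (hμ : IsP μ) {Λ : ℝ} (hb : ∀ z, |b z| ≤ Λ * μ z) {k : ℕ}
    (hk : k ≤ E.K) (l : E.G) : SS E μ b k l ≤ cN (E.nm k l) * gg E μ b k := by
  have h := KD.VarL.near (lipE E hk) (domE hμ hb (i := k) (by omega)) (hub hμ hk) (E.q_mass hk) l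
  rw [gg_eq hμ hb hk]
  exact h

/-- the constant of the far estimate -/
noncomputable def cF (C1 D : ℝ) : ℝ :=
  3 * (cN D / (1 / 2 * Real.exp (-(2 * (8 * C1))))) +
    6 * (4 + 4 * cN (8 * C1) / (1 / 2 * Real.exp (-(2 * (8 * C1)))))

lemma cF_nonneg (C1 D : ℝ) : 0 ≤ cF C1 D := by
  unfold cF
  have := cN_nonneg D
  have := cN_nonneg (8 * C1)
  positivity

lemma SS_far (hs : 0 < s) {μ b : E.G → ℝ} (hμ : IsP μ) {Λ : ℝ} (hb : ∀ z, |b z| ≤ Λ * μ z)
    {k j : ℕ} (hkj : k < j) (hj : j ≤ E.K) {D : ℝ} (l : E.G) (hl : E.nm j l ≤ D) :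
    SS E μ b k l ≤ cF C1 D * ∑ i ∈ Ico (k + 1) (j + 1), gg E μ b i := by
  have hC := one_le_C1 E
  obtain ⟨m, rfl⟩ : ∃ m, j = k + 1 + m := Nat.exists_eq_add_of_le hkj
  have hub' : ∀ z, 0 < cv (pk E.q (k + 1) m) (lev E.q μ (k + 1)) z := by
    intro z
    rw [← lev_pk]
    exact E.u_pos hμ hj z
  have h := KD.VarL.far (pk_lip E (k := k + 1) (m := m) hj) (domE hμ hb (i := k + 1) (by omega))
    hub' (pk_sum (fun i _ hi => E.q_mass (by omega)))
    (κ := 1 / 2 * Real.exp (-(2 * (8 * C1)))) (L := 8 * C1) (by positivity)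
    (pk_kappa E hs hj) (by positivity) (pk_half E hs hj) l
  rw [← lev_pk, ← lev_pk] at h
  have hD : ∑ i ∈ Ico (k + 1) (k + 1 + m + 1), gg E μ b i =
      DD E μ b (k + 1) - DD E μ b (k + 1 + m + 1) := by
    rw [← tele (DD E μ b) (by omega)]
    refine Finset.sum_congr rfl (fun i hi => ?_)
    rw [Finset.mem_Ico] at hi
    exact gg_eq hμ hb (by omega)
  rw [hD]
  refine le_trans h ?_
  have hge : 0 ≤ DD E μ b (k + 1) - DD E μ b (k + 1 + m + 1) := by
    rw [← hD]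
    refine Finset.sum_nonneg (fun i hi => ?_)
    rw [Finset.mem_Ico] at hi
    exact gg_nonneg hμ hb (by omega)
  apply mul_le_mul_of_nonneg_right _ hge
  unfold cF
  have h1 : cN (E.nm (k + 1 + m) l) ≤ cN D := cN_mono (nm_nonneg E _ l) hl
  have h2 : cN (E.nm (k + 1 + m) l) / (1 / 2 * Real.exp (-(2 * (8 * C1)))) ≤
      cN D / (1 / 2 * Real.exp (-(2 * (8 * C1)))) :=
    div_le_div_of_nonneg_right h1 (by positivity)
  linarith

lemma SS_triv {μ b : E.G → ℝ} (hμ : IsP μ) {Λ : ℝ} (hb0 : ∀ z, 0 ≤ b z)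
    (hb : ∀ z, b z ≤ Λ * μ z) {k : ℕ} (hk : k ≤ E.K) (l : E.G) :
    SS E μ b k l ≤ Λ ^ 2 := by
  have hq : ∀ i < k + 1, ∀ z, 0 ≤ E.q i z := fun i hi z => (E.q_pos (by omega) z).le
  have h0 : ∀ z, 0 ≤ lev E.q b (k + 1) z := lev_nonneg hq hb0
  have h1 : ∀ z, lev E.q b (k + 1) z ≤ Λ * lev E.q μ (k + 1) z := by
    intro z
    have := lev_mono (q := E.q) (n := k + 1) hq hb z
    rwa [lev_smul] at this
  have hr : ∀ z, 0 ≤ lev E.q b (k + 1) z / lev E.q μ (k + 1) z ∧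
      lev E.q b (k + 1) z / lev E.q μ (k + 1) z ≤ Λ := by
    intro z
    have hu := E.u_pos hμ hk z
    exact ⟨div_nonneg (h0 z) hu.le, by rw [div_le_iff₀ hu]; exact h1 z⟩
  unfold SS
  calc _ ≤ ∑ z, lev E.q μ (k + 1) z * Λ ^ 2 := by
        refine Finset.sum_le_sum (fun z _ => ?_)
        have hu := E.u_pos hμ hk z
        have hu2 := E.u_pos hμ hk (z + l)
        obtain ⟨a1, a2⟩ := hr z
        obtain ⟨a3, a4⟩ := hr (z + l)
        apply mul_le_mul (min_le_left _ _) _ (sq_nonneg _) hu.le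
        apply sq_le_sq'
        · linarith
        · linarith
    _ = Λ ^ 2 := by rw [← Finset.sum_mul, E.u_sum hμ (by omega), one_mul]

lemma nm_jump {k j : ℕ} (hj : j ≤ E.K + 3) (θ : E.Θ) :
    E.nm k (E.S.jv j θ) ≤ 2 * d * (2 ^ j / 2 ^ k) := by
  unfold Env.nm nrm JSys.jv vs
  simp only
  have h1 : n1 (0 : V d E.N) = 0 := n1_zero
  rw [h1, zero_div, zero_add]
  have h2 := n1_le (E.S.pi j θ)
  have h3 : (nsup (E.S.pi j θ) : ℝ) ≤ 2 ^ (j + 1) := by
    exact_mod_cast (E.S.pi_hi j hj θ).le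
  have h4 : n1 (E.S.pi j θ) ≤ d * 2 ^ (j + 1) :=
    le_trans h2 (mul_le_mul_of_nonneg_left h3 (Nat.cast_nonneg d))
  calc n1 (E.S.pi j θ) / 2 ^ k ≤ (d * 2 ^ (j + 1)) / 2 ^ k :=
        div_le_div_of_nonneg_right h4 (by positivity)
    _ = _ := by rw [pow_succ]; ring

/-- the bound for one label -/
lemma per_theta (hs : 0 < s) (hs1 : s < 1) {lam Lam M0 : ℝ} (hlam : 0 < lam) (hM0 : 0 ≤ M0)
    {a : ℕ → E.Θ → E.G → ℝ} (ha : E.S.Coef lam Lam M0 a) {μ : E.G → ℝ} (hμ : IsP μ) (θ : E.Θ)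
    {ρ : ℝ} (hρ : ρ = max ((2 : ℝ) ^ (2 * s - 2)) ((2 : ℝ) ^ (-(2 * s)))) (hρ1 : ρ < 1) :
    ∑ k ∈ range (E.K + 1), ∑ j ∈ range (E.K + 4), tim s k / tim s j *
      SS E μ (fun z => a j θ z * μ z) k (E.S.jv j θ) ≤
      ((2 * d) ^ 2 * Real.exp (4 * (2 * d)) + cF C1 (2 * d) * (1 - ρ)⁻¹) *
        (4 * (1 - ρ)⁻¹ * (Lam ^ 2 + 2 * Lam * M0) +
          4 * Lam * ((1 - ρ)⁻¹ * (1 - ρ)⁻¹) * M0) + 3 * (Lam ^ 2 * (1 - ρ)⁻¹) := by
  classical
  have hLam : 0 ≤ Lam := by
    have z : E.G := 0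
    exact le_trans hlam.le (le_trans (ha.lo 0 θ z) (ha.hi 0 θ z))
  have hρ0 : 0 < ρ := by
    rw [hρ]; exact lt_of_lt_of_le (Real.rpow_pos_of_pos two_pos _) (le_max_left _ _)
  have hinv : 0 ≤ (1 - ρ)⁻¹ := inv_nonneg.2 (by linarith)
  set b : ℕ → E.G → ℝ := fun j z => a j θ z * μ z with hbdef
  have hb0 : ∀ j z, 0 ≤ b j z := fun j z =>
    mul_nonneg (le_trans hlam.le (ha.lo j θ z)) (hμ.nn z)
  have hbL : ∀ j z, b j z ≤ Lam * μ z := fun j z =>
    mul_le_mul_of_nonneg_right (ha.hi j θ z) (hμ.nn z)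
  have hb : ∀ j z, |b j z| ≤ Lam * μ z := fun j z => by
    rw [abs_of_nonneg (hb0 j z)]; exact hbL j z
  set Δ : ℕ → ℝ := fun l => ∑ z, |a (l + 1) θ z - a l θ z| * μ z with hΔ
  have hΔ0 : ∀ l, 0 ≤ Δ l := fun l =>
    Finset.sum_nonneg (fun z _ => mul_nonneg (abs_nonneg _) (hμ.nn z))
  have hΔs : ∑ l ∈ range (E.K + 3), Δ l ≤ M0 := by
    simp only [hΔ]
    rw [Finset.sum_comm]
    calc ∑ z, ∑ l ∈ range (E.K + 3), |a (l + 1) θ z - a l θ z| * μ z
        ≤ ∑ z, M0 * μ z := by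
          refine Finset.sum_le_sum (fun z _ => ?_)
          rw [← Finset.sum_mul]
          exact mul_le_mul_of_nonneg_right (ha.bv θ z) (hμ.nn z)
      _ = M0 := by rw [← Finset.mul_sum, hμ.one, mul_one]
  have hΔs' : ∀ n ≤ E.K + 3, ∑ l ∈ range n, Δ l ≤ M0 := fun n hn =>
    le_trans (Finset.sum_le_sum_of_subset_of_nonneg (Finset.range_mono hn)
      (fun l _ _ => hΔ0 l)) hΔs
  set G : ℕ → ℕ → ℝ := fun i j => gg E μ (b j) i with hG
  have hG0 : ∀ i ≤ E.K, ∀ j, 0 ≤ G i j := fun i hi j => gg_nonneg hμ (hb j) hi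
  set A : ℕ → ℝ := fun i => if i ≤ E.K then G i i else 0 with hA
  have hA0 : ∀ i, 0 ≤ A i := by
    intro i
    simp only [hA]
    split_ifs with h
    · exact hG0 i h i
    · exact le_rfl
  have hdiff : ∀ i j z, |a j θ z - a i θ z| ≤ Lam := by
    intro i j z
    rw [abs_le]
    have h1 := ha.lo i θ z
    have h2 := ha.hi i θ z
    have h3 := ha.lo j θ z
    have h4 := ha.hi j θ z
    constructor <;> linarith
  have hGA : ∀ i ≤ E.K, ∀ j ≤ E.K,
      G i j ≤ 2 * A i + 2 * Lam * ∑ l ∈ Ico (min i j) (max i j), Δ l := by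
    intro i hi j hj
    have e1 : G i j = gg E μ (fun z => b i z + (a j θ z - a i θ z) * μ z) i := by
      simp only [hG]
      congr 1
      funext z
      simp only [hbdef]; ring
    have h1 := gg_add (b := b i) (b' := fun z => (a j θ z - a i θ z) * μ z) hμ hi
    have hbb : ∀ z, |(a j θ z - a i θ z) * μ z| ≤ Lam * μ z := by
      intro z
      rw [abs_mul, abs_of_nonneg (hμ.nn z)]
      exact mul_le_mul_of_nonneg_right (hdiff i j z) (hμ.nn z)
    have h2 := gg_le (b := fun z => (a j θ z - a i θ z) * μ z) hμ hbb hi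
    rw [DD_zero_mul] at h2
    have h3 : ∑ z, (a j θ z - a i θ z) ^ 2 * μ z ≤
        Lam * ∑ l ∈ Ico (min i j) (max i j), Δ l := by
      simp only [hΔ]
      rw [Finset.sum_comm, Finset.mul_sum]
      refine Finset.sum_le_sum (fun z _ => ?_)
      rw [← Finset.sum_mul]
      have h4 := abs_sub_le_Ico (fun l => a l θ z) i j
      beta_reduce at h4
      have h5 : (a j θ z - a i θ z) ^ 2 ≤
          Lam * ∑ l ∈ Ico (min i j) (max i j), |a (l + 1) θ z - a l θ z| := by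
        rw [← sq_abs, sq]
        exact mul_le_mul (hdiff i j z) h4 (abs_nonneg _) hLam
      calc (a j θ z - a i θ z) ^ 2 * μ z ≤
          (Lam * ∑ l ∈ Ico (min i j) (max i j), |a (l + 1) θ z - a l θ z|) * μ z :=
            mul_le_mul_of_nonneg_right h5 (hμ.nn z)
        _ = _ := by ring
    have e2 : A i = gg E μ (b i) i := by simp only [hA, if_pos hi, hG]
    rw [e1, e2]
    linarith
  have hAs : ∑ i ∈ range (E.K + 1), A i ≤ Lam ^ 2 + 2 * Lam * M0 := by
    set x : ℕ → ℝ := fun i => DD E μ (b i) i with hx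
    have h1 : ∀ i ∈ range (E.K + 1), A i ≤ (x i - x (i + 1)) + 2 * Lam * Δ i := by
      intro i hi
      have hi' : i ≤ E.K := Nat.lt_succ_iff.mp (Finset.mem_range.mp hi)
      have e2 : A i = DD E μ (b i) i - DD E μ (b i) (i + 1) := by
        simp only [hA, if_pos hi', hG]
        exact gg_eq hμ (hb i) hi'
      have h2 := DD_diff hμ hLam (hb (i + 1)) (hb i) (i := i + 1) (by omega)
      have h3 : ∑ z, |b (i + 1) z - b i z| = Δ i := by
        simp only [hΔ, hbdef]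
        refine Finset.sum_congr rfl (fun z _ => ?_)
        rw [← sub_mul, abs_mul, abs_of_nonneg (hμ.nn z)]
      rw [h3] at h2
      have h4 := (abs_le.mp h2).2
      simp only [hx]
      linarith
    refine le_trans (Finset.sum_le_sum h1) ?_
    rw [Finset.sum_add_distrib, ← Finset.mul_sum]
    have h5 : ∑ i ∈ range (E.K + 1), (x i - x (i + 1)) = x 0 - x (E.K + 1) := by
      rw [Finset.range_eq_Ico, tele x (Nat.zero_le _)]
    have h6 : x 0 ≤ Lam ^ 2 := by
      simp only [hx]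
      have : DD E μ (b 0) 0 = ∑ z, (a 0 θ z) ^ 2 * μ z := DD_zero_mul
      rw [this]
      calc ∑ z, (a 0 θ z) ^ 2 * μ z ≤ ∑ z, Lam ^ 2 * μ z := by
            refine Finset.sum_le_sum (fun z _ => mul_le_mul_of_nonneg_right ?_ (hμ.nn z))
            exact pow_le_pow_left₀ (le_trans hlam.le (ha.lo 0 θ z)) (ha.hi 0 θ z) 2
        _ = Lam ^ 2 := by rw [← Finset.mul_sum, hμ.one, mul_one]
    have h7 : 0 ≤ x (E.K + 1) := DD_nonneg hμ le_rfl
    have h8 := mul_le_mul_of_nonneg_left (hΔs' (E.K + 1) (by omega))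
      (show 0 ≤ 2 * Lam by positivity)
    rw [h5]
    linarith
  -- the weighted double sum
  set W : ℝ := ∑ i ∈ range (E.K + 1), ∑ j ∈ range (E.K + 1), ρ ^ dd i j * G i j with hW
  have hWb : W ≤ 4 * (1 - ρ)⁻¹ * (Lam ^ 2 + 2 * Lam * M0) +
      4 * Lam * ((1 - ρ)⁻¹ * (1 - ρ)⁻¹) * M0 := by
    have h1 := double E.K hρ0.le hρ1 A Δ G Lam hLam hA0 hΔ0 hGA
    have h2 := mul_le_mul_of_nonneg_left hAs (show 0 ≤ 4 * (1 - ρ)⁻¹ by positivity)
    have h3 := mul_le_mul_of_nonneg_left (hΔs' E.K (by omega))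
      (show 0 ≤ 4 * Lam * ((1 - ρ)⁻¹ * (1 - ρ)⁻¹) by positivity)
    linarith
  have hWnn : 0 ≤ W := Finset.sum_nonneg (fun i hi => Finset.sum_nonneg (fun j _ =>
    mul_nonneg (by positivity) (hG0 i (Nat.lt_succ_iff.mp (Finset.mem_range.mp hi)) j)))
  set cn : ℝ := (2 * d) ^ 2 * Real.exp (4 * (2 * d)) with hcn
  set cf : ℝ := cF C1 (2 * d) with hcf
  have hcn0 : 0 ≤ cn := by positivity
  have hcf0 : 0 ≤ cf := cF_nonneg _ _
  -- termwise bounds
  have hterm : ∀ k ∈ range (E.K + 1), ∀ j ∈ range (E.K + 1),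
      tim s k / tim s j * SS E μ (b j) k (E.S.jv j θ) ≤
      cn * (ρ ^ dd k j * G k j) +
        cf * (if k < j then ρ ^ (j - k) * ∑ i ∈ Ico (k + 1) (j + 1), G i j else 0) := by
    intro k hk j hj
    have hk' : k ≤ E.K := Nat.lt_succ_iff.mp (Finset.mem_range.mp hk)
    have hj' : j ≤ E.K := Nat.lt_succ_iff.mp (Finset.mem_range.mp hj)
    have htt : 0 < tim s k / tim s j := div_pos (tim_pos s k) (tim_pos s j)
    rcases Nat.lt_or_ge k j with hkj | hkj
    · rw [if_pos hkj]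
      have h1 := SS_far hs hμ (hb j) hkj hj' (D := 2 * d) (E.S.jv j θ)
        (by
          have := nm_jump (E := E) (k := j) (j := j) (by omega) θ
          rwa [div_self (by positivity), mul_one] at this)
      have h2 : tim s k / tim s j ≤ ρ ^ (j - k) := by
        rw [tim_div' hkj.le]
        exact pow_le_pow_left₀ (Real.rpow_pos_of_pos two_pos _).le
          (by rw [hρ]; exact le_max_right _ _) _
      have h3 : 0 ≤ cf * ∑ i ∈ Ico (k + 1) (j + 1), gg E μ (b j) i := by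
        apply mul_nonneg hcf0
        refine Finset.sum_nonneg (fun i hi => ?_)
        rw [Finset.mem_Ico] at hi
        exact gg_nonneg hμ (hb j) (by omega)
      have h4 : 0 ≤ cn * (ρ ^ dd k j * G k j) :=
        mul_nonneg hcn0 (mul_nonneg (by positivity) (hG0 k hk' j))
      calc tim s k / tim s j * SS E μ (b j) k (E.S.jv j θ)
          ≤ tim s k / tim s j * (cf * ∑ i ∈ Ico (k + 1) (j + 1), gg E μ (b j) i) :=
            mul_le_mul_of_nonneg_left h1 htt.le
        _ ≤ ρ ^ (j - k) * (cf * ∑ i ∈ Ico (k + 1) (j + 1), gg E μ (b j) i) :=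
            mul_le_mul_of_nonneg_right h2 h3
        _ = cf * (ρ ^ (j - k) * ∑ i ∈ Ico (k + 1) (j + 1), G i j) := by ring
        _ ≤ _ := by linarith
    · rw [if_neg (by omega), mul_zero, add_zero]
      have h1 := SS_near hμ (hb j) hk' (E.S.jv j θ)
      have hjump := nm_jump (E := E) (k := k) (j := j) (by omega) θ
      have hnn := nm_nonneg E k (E.S.jv j θ)
      have hle1 : (2 : ℝ) ^ j / 2 ^ k ≤ 1 := by
        rw [div_le_one (by positivity)]
        exact pow_le_pow_right₀ one_le_two hkj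
      have hd0 : (0 : ℝ) ≤ d := Nat.cast_nonneg d
      have h2 : E.nm k (E.S.jv j θ) ≤ 2 * d := by
        refine le_trans hjump ?_
        have := mul_le_mul_of_nonneg_left hle1 (show (0 : ℝ) ≤ 2 * d by positivity)
        linarith
      have h3 := cN_le hnn h2
      have h4 : E.nm k (E.S.jv j θ) ^ 2 ≤ (2 * d * (2 ^ j / 2 ^ k)) ^ 2 :=
        pow_le_pow_left₀ hnn hjump 2
      have h5 : cN (E.nm k (E.S.jv j θ)) ≤ cn * (2 ^ j / 2 ^ k) ^ 2 := by
        refine le_trans h3 ?_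
        have := mul_le_mul_of_nonneg_right h4 (Real.exp_pos (4 * (2 * (d : ℝ)))).le
        rw [hcn]
        refine le_trans this (le_of_eq ?_)
        ring
      have hg := hG0 k hk' j
      calc tim s k / tim s j * SS E μ (b j) k (E.S.jv j θ)
          ≤ tim s k / tim s j * (cN (E.nm k (E.S.jv j θ)) * G k j) :=
            mul_le_mul_of_nonneg_left h1 htt.le
        _ ≤ tim s k / tim s j * ((cn * (2 ^ j / 2 ^ k) ^ 2) * G k j) :=
            mul_le_mul_of_nonneg_left (mul_le_mul_of_nonneg_right h5 hg) htt.le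
        _ = cn * ((tim s k / tim s j * (2 ^ j / 2 ^ k) ^ 2) * G k j) := by ring
        _ ≤ cn * (ρ ^ dd k j * G k j) := by
            apply mul_le_mul_of_nonneg_left _ hcn0
            apply mul_le_mul_of_nonneg_right _ hg
            rw [tim_div hkj]
            have : dd k j = k - j := by unfold dd; omega
            rw [this]
            exact pow_le_pow_left₀ (Real.rpow_pos_of_pos two_pos _).le
              (by rw [hρ]; exact le_max_left _ _) _
  -- the far part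
  have hfar : ∑ k ∈ range (E.K + 1), ∑ j ∈ range (E.K + 1),
      (if k < j then ρ ^ (j - k) * ∑ i ∈ Ico (k + 1) (j + 1), G i j else 0) ≤ (1 - ρ)⁻¹ * W := by
    have e1 : ∀ k j, (if k < j then ρ ^ (j - k) * ∑ i ∈ Ico (k + 1) (j + 1), G i j else 0) =
        ∑ i ∈ Ico (k + 1) (j + 1), ρ ^ (j - k) * G i j := by
      intro k j
      split_ifs with h
      · rw [Finset.mul_sum]
      · rw [Finset.Ico_eq_empty (by omega), Finset.sum_empty]
    have e2 : ∀ k j, j ∈ range (E.K + 1) → ∑ i ∈ Ico (k + 1) (j + 1), ρ ^ (j - k) * G i j =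
        ∑ i ∈ range (E.K + 1), (if k < i ∧ i ≤ j then ρ ^ (j - k) * G i j else 0) := by
      intro k j hj
      have hj' : j ≤ E.K := Nat.lt_succ_iff.mp (Finset.mem_range.mp hj)
      rw [← Finset.sum_filter]
      apply Finset.sum_congr _ (fun _ _ => rfl)
      ext i
      rw [Finset.mem_Ico, Finset.mem_filter, Finset.mem_range]
      omega
    have h1 : ∀ i ∈ range (E.K + 1), ∀ j ∈ range (E.K + 1),
        ∑ k ∈ range (E.K + 1), (if k < i ∧ i ≤ j then ρ ^ (j - k) * G i j else 0) ≤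
        (1 - ρ)⁻¹ * (ρ ^ dd i j * G i j) := by
      intro i hi j hj
      have hi' : i ≤ E.K := Nat.lt_succ_iff.mp (Finset.mem_range.mp hi)
      have hg := hG0 i hi' j
      by_cases hij : i ≤ j
      · have e3 : ∀ k ∈ range (E.K + 1), (if k < i ∧ i ≤ j then ρ ^ (j - k) * G i j else 0) =
            (if k < i then ρ ^ (i - k) else 0) * (ρ ^ dd i j * G i j) := by
          intro k _
          by_cases hk : k < i
          · rw [if_pos ⟨hk, hij⟩, if_pos hk]
            have e4 : dd i j = j - i := by unfold dd; omega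
            rw [e4, ← mul_assoc, ← pow_add]
            congr 2
            omega
          · rw [if_neg (fun h => hk h.1), if_neg hk, zero_mul]
        rw [Finset.sum_congr rfl e3, ← Finset.sum_mul]
        apply mul_le_mul_of_nonneg_right _ (mul_nonneg (by positivity) hg)
        rw [← Finset.sum_filter]
        apply geo_inj _ _ _ hρ0.le hρ1
        intro x hx y hy hxy
        have hx := (Finset.mem_filter.mp hx).2
        have hy := (Finset.mem_filter.mp hy).2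
        beta_reduce at hxy
        omega
      · have e3 : ∀ k ∈ range (E.K + 1),
            (if k < i ∧ i ≤ j then ρ ^ (j - k) * G i j else 0) = 0 := by
          intro k _
          rw [if_neg (fun h => hij h.2)]
        rw [Finset.sum_congr rfl e3, Finset.sum_const_zero]
        exact mul_nonneg hinv (mul_nonneg (by positivity) hg)
    calc ∑ k ∈ range (E.K + 1), ∑ j ∈ range (E.K + 1),
          (if k < j then ρ ^ (j - k) * ∑ i ∈ Ico (k + 1) (j + 1), G i j else 0)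
        = ∑ k ∈ range (E.K + 1), ∑ j ∈ range (E.K + 1), ∑ i ∈ range (E.K + 1),
          (if k < i ∧ i ≤ j then ρ ^ (j - k) * G i j else 0) := by
          refine Finset.sum_congr rfl (fun k _ => Finset.sum_congr rfl (fun j hj => ?_))
          rw [e1, e2 k j hj]
      _ = ∑ k ∈ range (E.K + 1), ∑ i ∈ range (E.K + 1), ∑ j ∈ range (E.K + 1),
          (if k < i ∧ i ≤ j then ρ ^ (j - k) * G i j else 0) :=
          Finset.sum_congr rfl (fun k _ => Finset.sum_comm)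
      _ = ∑ i ∈ range (E.K + 1), ∑ k ∈ range (E.K + 1), ∑ j ∈ range (E.K + 1),
          (if k < i ∧ i ≤ j then ρ ^ (j - k) * G i j else 0) := Finset.sum_comm
      _ = ∑ i ∈ range (E.K + 1), ∑ j ∈ range (E.K + 1), ∑ k ∈ range (E.K + 1),
          (if k < i ∧ i ≤ j then ρ ^ (j - k) * G i j else 0) :=
          Finset.sum_congr rfl (fun i _ => Finset.sum_comm)
      _ ≤ ∑ i ∈ range (E.K + 1), ∑ j ∈ range (E.K + 1), (1 - ρ)⁻¹ * (ρ ^ dd i j * G i j) :=
          Finset.sum_le_sum (fun i hi => Finset.sum_le_sum (fun j hj => h1 i hi j hj))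
      _ = (1 - ρ)⁻¹ * W := by
          rw [hW]; simp only [Finset.mul_sum]
  -- the three top shells
  have htop : ∀ j, E.K < j → ∑ k ∈ range (E.K + 1),
      tim s k / tim s j * SS E μ (b j) k (E.S.jv j θ) ≤ Lam ^ 2 * (1 - ρ)⁻¹ := by
    intro j hj
    calc ∑ k ∈ range (E.K + 1), tim s k / tim s j * SS E μ (b j) k (E.S.jv j θ)
        ≤ ∑ k ∈ range (E.K + 1), ρ ^ (j - k) * Lam ^ 2 := by
          refine Finset.sum_le_sum (fun k hk => ?_)
          have hk' : k ≤ E.K := Nat.lt_succ_iff.mp (Finset.mem_range.mp hk)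
          have htt : 0 < tim s k / tim s j := div_pos (tim_pos s k) (tim_pos s j)
          have h2 : tim s k / tim s j ≤ ρ ^ (j - k) := by
            rw [tim_div' (by omega)]
            exact pow_le_pow_left₀ (Real.rpow_pos_of_pos two_pos _).le
              (by rw [hρ]; exact le_max_right _ _) _
          have h1 := SS_triv hμ (hb0 j) (hbL j) hk' (E.S.jv j θ)
          calc _ ≤ tim s k / tim s j * Lam ^ 2 := mul_le_mul_of_nonneg_left h1 htt.le
            _ ≤ _ := mul_le_mul_of_nonneg_right h2 (sq_nonneg _)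
      _ = (∑ k ∈ range (E.K + 1), ρ ^ (j - k)) * Lam ^ 2 := by rw [Finset.sum_mul]
      _ ≤ (1 - ρ)⁻¹ * Lam ^ 2 := by
          apply mul_le_mul_of_nonneg_right _ (sq_nonneg _)
          apply geo_inj _ _ _ hρ0.le hρ1
          intro x hx y hy hxy
          have hx := Finset.mem_range.mp hx
          have hy := Finset.mem_range.mp hy
          beta_reduce at hxy
          omega
      _ = _ := by ring
  have hsplit : ∀ k, ∑ j ∈ range (E.K + 4), tim s k / tim s j * SS E μ (b j) k (E.S.jv j θ) =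
      ∑ j ∈ range (E.K + 1), tim s k / tim s j * SS E μ (b j) k (E.S.jv j θ) +
      tim s k / tim s (E.K + 1) * SS E μ (b (E.K + 1)) k (E.S.jv (E.K + 1) θ) +
      tim s k / tim s (E.K + 2) * SS E μ (b (E.K + 2)) k (E.S.jv (E.K + 2) θ) +
      tim s k / tim s (E.K + 3) * SS E μ (b (E.K + 3)) k (E.S.jv (E.K + 3) θ) := by
    intro k
    rw [show E.K + 4 = E.K + 1 + 1 + 1 + 1 by ring, Finset.sum_range_succ, Finset.sum_range_succ,
      Finset.sum_range_succ]
  have hgoal : ∑ k ∈ range (E.K + 1), ∑ j ∈ range (E.K + 4), tim s k / tim s j *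
      SS E μ (b j) k (E.S.jv j θ) ≤ (cn + cf * (1 - ρ)⁻¹) * W + 3 * (Lam ^ 2 * (1 - ρ)⁻¹) := by
    simp only [hsplit]
    rw [Finset.sum_add_distrib, Finset.sum_add_distrib, Finset.sum_add_distrib]
    have t1 := htop (E.K + 1) (by omega)
    have t2 := htop (E.K + 2) (by omega)
    have t3 := htop (E.K + 3) (by omega)
    have t0 : ∑ k ∈ range (E.K + 1), ∑ j ∈ range (E.K + 1),
        tim s k / tim s j * SS E μ (b j) k (E.S.jv j θ) ≤ (cn + cf * (1 - ρ)⁻¹) * W := by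
      calc _ ≤ ∑ k ∈ range (E.K + 1), ∑ j ∈ range (E.K + 1), (cn * (ρ ^ dd k j * G k j) +
            cf * (if k < j then ρ ^ (j - k) * ∑ i ∈ Ico (k + 1) (j + 1), G i j else 0)) :=
            Finset.sum_le_sum (fun k hk => Finset.sum_le_sum (fun j hj => hterm k hk j hj))
        _ = cn * W + cf * ∑ k ∈ range (E.K + 1), ∑ j ∈ range (E.K + 1),
            (if k < j then ρ ^ (j - k) * ∑ i ∈ Ico (k + 1) (j + 1), G i j else 0) := by
            simp only [Finset.sum_add_distrib, ← Finset.mul_sum, hW]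
        _ ≤ cn * W + cf * ((1 - ρ)⁻¹ * W) := by
            have := mul_le_mul_of_nonneg_left hfar hcf0
            linarith
        _ = _ := by ring
    linarith
  refine le_trans hgoal ?_
  have hcc : 0 ≤ cn + cf * (1 - ρ)⁻¹ := by positivity
  have := mul_le_mul_of_nonneg_left hWb hcc
  linarith

end

/-- I.4: the coefficient error -/
theorem coef_error (s lam Lam M0 c0 C0 C1 : ℝ) (d : ℕ) (_hd : 1 ≤ d) (hs : 0 < s) (hs1 : s < 1)
    (hlam : 0 < lam) (hLam : lam ≤ Lam) (hM0 : 0 ≤ M0) (hC0 : 0 < C0) : ∃ C : ℝ, 0 < C ∧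
    ∀ (E : Env d s c0 C0 C1) (a : ℕ → E.Θ → E.G → ℝ), E.S.Coef lam Lam M0 a → ∀ μ, IsP μ →
      ∑ k ∈ range (E.K + 1), tim s k * E.Ek a μ k ≤ C := by
  set ρ : ℝ := max ((2 : ℝ) ^ (2 * s - 2)) ((2 : ℝ) ^ (-(2 * s))) with hρ
  have hρ1 : ρ < 1 := by
    rw [hρ]
    apply max_lt
    · exact Real.rpow_lt_one_of_one_lt_of_neg one_lt_two (by linarith)
    · exact Real.rpow_lt_one_of_one_lt_of_neg one_lt_two (by linarith)
  have hinv : 0 < (1 - ρ)⁻¹ := inv_pos.2 (by linarith)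
  have hL : 0 < Lam := lt_of_lt_of_le hlam hLam
  set CB : ℝ := ((2 * d) ^ 2 * Real.exp (4 * (2 * d)) + cF C1 (2 * d) * (1 - ρ)⁻¹) *
        (4 * (1 - ρ)⁻¹ * (Lam ^ 2 + 2 * Lam * M0) +
          4 * Lam * ((1 - ρ)⁻¹ * (1 - ρ)⁻¹) * M0) + 3 * (Lam ^ 2 * (1 - ρ)⁻¹) with hCB
  have hcf := cF_nonneg C1 (2 * d)
  have hCB0 : 0 < CB := by
    have h1 : 0 < 3 * (Lam ^ 2 * (1 - ρ)⁻¹) := by positivity
    have h2 : 0 ≤ ((2 * d) ^ 2 * Real.exp (4 * (2 * d)) + cF C1 (2 * d) * (1 - ρ)⁻¹) *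
        (4 * (1 - ρ)⁻¹ * (Lam ^ 2 + 2 * Lam * M0) +
          4 * Lam * ((1 - ρ)⁻¹ * (1 - ρ)⁻¹) * M0) := by positivity
    rw [hCB]; linarith
  refine ⟨C0 * CB, by positivity, ?_⟩
  intro E a ha μ hμ
  have e1 : ∑ k ∈ range (E.K + 1), tim s k * E.Ek a μ k =
      ∑ θ, E.S.m θ * ∑ k ∈ range (E.K + 1), ∑ j ∈ range (E.K + 4), tim s k / tim s j *
        SS E μ (fun z => a j θ z * μ z) k (E.S.jv j θ) := by
    unfold Env.Ek JSys.Ef
    have : ∀ k, tim s k * ∑ j ∈ range (E.K + 3 + 1), ∑ θ, E.S.wt s j θ *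
        ∑ z, min (lev E.q μ (k + 1) z) (lev E.q μ (k + 1) (z + E.S.jv j θ)) *
          (E.bl a μ (k + 1) j θ (z + E.S.jv j θ) / lev E.q μ (k + 1) (z + E.S.jv j θ) -
            E.bl a μ (k + 1) j θ z / lev E.q μ (k + 1) z) ^ 2 =
        ∑ θ, ∑ j ∈ range (E.K + 4), E.S.m θ * (tim s k / tim s j *
          SS E μ (fun z => a j θ z * μ z) k (E.S.jv j θ)) := by
      intro k
      rw [Finset.mul_sum, Finset.sum_comm]
      refine Finset.sum_congr rfl (fun j _ => ?_)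
      rw [Finset.mul_sum]
      refine Finset.sum_congr rfl (fun θ _ => ?_)
      unfold JSys.wt SS Env.bl
      ring
    simp only [this]
    rw [Finset.sum_comm]
    refine Finset.sum_congr rfl (fun θ _ => ?_)
    rw [Finset.mul_sum]
    refine Finset.sum_congr rfl (fun k _ => ?_)
    rw [Finset.mul_sum]
  rw [e1]
  calc _ ≤ ∑ θ, E.S.m θ * CB :=
        Finset.sum_le_sum (fun θ _ => mul_le_mul_of_nonneg_left
          (per_theta hs hs1 hlam hM0 ha hμ θ hρ hρ1) (E.S.m_nn θ))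
    _ = (∑ θ, E.S.m θ) * CB := by rw [Finset.sum_mul]
    _ ≤ C0 * CB := mul_le_mul_of_nonneg_right E.S.mass hCB0.le

end KD.E5
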