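import Pool.Agent.Helper57.KD1.Var

/-! KD Part I, section I.4: products of noise kernels and gauges -/

set_option linter.unusedSectionVars false

namespace KD.Pk

open Finset KD.VarL

/-! ### the cyclic norms -/

section norms
variable {d N : ℕ} [NeZero N]

lemma n1_nonneg (x : V d N) : 0 ≤ n1 x := Finset.sum_nonneg (fun _ _ => Nat.cast_nonneg _)

lemma n1_zero : n1 (0 : V d N) = 0 := by simp [n1]

lemma n1_neg (x : V d N) : n1 (-x) = n1 x := by
  unfold n1
  refine Finset.sum_congr rfl (fun i _ => ?_)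
  rw [Pi.neg_apply, ZMod.natAbs_valMinAbs_neg]

lemma n1_add (x y : V d N) : n1 (x + y) ≤ n1 x + n1 y := by
  unfold n1
  rw [← Finset.sum_add_distrib]
  refine Finset.sum_le_sum (fun i _ => ?_)
  have := ZMod.natAbs_valMinAbs_add_le (x i) (y i)
  have h2 : ((x i).valMinAbs + (y i).valMinAbs).natAbs ≤
      (x i).valMinAbs.natAbs + (y i).valMinAbs.natAbs := Int.natAbs_add_le _ _
  exact_mod_cast le_trans this h2

lemma n1_le (x : V d N) : n1 x ≤ d * nsup x := by
  unfold n1 nsup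
  calc ∑ i, ((x i).valMinAbs.natAbs : ℝ)
      ≤ ∑ _i : Fin d, ((Finset.univ.sup (fun i => (x i).valMinAbs.natAbs) : ℕ) : ℝ) :=
        Finset.sum_le_sum (fun i _ => by
          exact_mod_cast Finset.le_sup (f := fun i => (x i).valMinAbs.natAbs) (Finset.mem_univ i))
    _ = _ := by rw [Finset.sum_const, Finset.card_univ, Fintype.card_fin, nsmul_eq_mul]

lemma nrm_nonneg {r R : ℝ} (hr : 0 < r) (hR : 0 < R) (w : GG d N) : 0 ≤ nrm r R w := by
  unfold nrm
  have := n1_nonneg w.1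
  have := n1_nonneg w.2
  positivity

lemma nrm_neg (r R : ℝ) (w : GG d N) : nrm r R (-w) = nrm r R w := by
  unfold nrm
  rw [Prod.fst_neg, Prod.snd_neg, n1_neg, n1_neg]

lemma nrm_add {r R : ℝ} (hr : 0 < r) (hR : 0 < R) (w w' : GG d N) :
    nrm r R (w + w') ≤ nrm r R w + nrm r R w' := by
  unfold nrm
  rw [Prod.fst_add, Prod.snd_add]
  have h1 := div_le_div_of_nonneg_right (n1_add w.1 w'.1) hR.le
  have h2 := div_le_div_of_nonneg_right (n1_add w.2 w'.2) hr.le
  rw [add_div] at h1 h2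
  linarith

end norms

/-! ### products of kernels -/

section prod
variable {G : Type*} [Fintype G] [AddCommGroup G]

/-- `q_{k+m} * ... * q_k` -/
noncomputable def pk (q : ℕ → G → ℝ) (k : ℕ) : ℕ → G → ℝ
  | 0 => q k
  | m + 1 => cv (q (k + (m + 1))) (pk q k m)

lemma lev_pk (q : ℕ → G → ℝ) (b : G → ℝ) (k m : ℕ) :
    lev q b (k + m + 1) = cv (pk q k m) (lev q b k) := by
  induction m with
  | zero => rfl
  | succ m ih =>
    have : k + (m + 1) + 1 = (k + m + 1) + 1 := by ring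
    rw [this, lev_succ, ih, cv_assoc]
    rfl

lemma pk_pos {q : ℕ → G → ℝ} {k m : ℕ} (hq : ∀ i, k ≤ i → i ≤ k + m → ∀ z, 0 < q i z) :
    ∀ z, 0 < pk q k m z := by
  induction m with
  | zero => exact hq k le_rfl le_rfl
  | succ m ih =>
    intro z
    have h1 := ih (fun i h1 h2 => hq i h1 (by omega))
    have h2 := hq (k + (m + 1)) (by omega) le_rfl
    refine cv_pos h2 (fun z => (h1 z).le) ?_ z
    exact Finset.sum_pos (fun z _ => h1 z) ⟨0, Finset.mem_univ _⟩

lemma pk_sum {q : ℕ → G → ℝ} {k m : ℕ} (hq : ∀ i, k ≤ i → i ≤ k + m → ∑ z, q i z = 1) :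
    ∑ z, pk q k m z = 1 := by
  induction m with
  | zero => exact hq k le_rfl le_rfl
  | succ m ih =>
    rw [pk, sum_cv, hq (k + (m + 1)) (by omega) le_rfl, ih (fun i h1 h2 => hq i h1 (by omega)),
      one_mul]

/-- first moment of a convolution -/
lemma cv_mom {p q : G → ℝ} {nm : G → ℝ} (hp : ∀ z, 0 ≤ p z) (hq : ∀ z, 0 ≤ q z)
    (hp1 : ∑ z, p z = 1) (hq1 : ∑ z, q z = 1) (hadd : ∀ w w', nm (w + w') ≤ nm w + nm w') :
    ∑ z, cv q p z * nm z ≤ ∑ z, q z * nm z + ∑ z, p z * nm z := by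
  have e : ∑ z, cv q p z * nm z = ∑ w, ∑ y, q w * p y * nm (y + w) := by
    unfold cv
    simp only [Finset.sum_mul]
    rw [Finset.sum_comm]
    refine Finset.sum_congr rfl (fun w _ => ?_)
    rw [← sum_shift (fun z => q w * p (z - w) * nm z) w]
    refine Finset.sum_congr rfl (fun y _ => by rw [add_sub_cancel_right])
  rw [e]
  calc ∑ w, ∑ y, q w * p y * nm (y + w) ≤ ∑ w, ∑ y, (q w * nm w * p y + q w * (p y * nm y)) := by
        refine Finset.sum_le_sum (fun w _ => Finset.sum_le_sum (fun y _ => ?_))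
        have h1 := mul_le_mul_of_nonneg_left (hadd y w) (mul_nonneg (hq w) (hp y))
        linarith
    _ = _ := by
        simp only [Finset.sum_add_distrib, ← Finset.mul_sum, hp1, mul_one, ← Finset.sum_mul, hq1,
          one_mul]

end prod

/-! ### the environment -/

section env
variable {d : ℕ} {s c0 C0 C1 : ℝ} (E : Env d s c0 C0 C1)

lemma nm_nonneg (k : ℕ) (w : E.G) : 0 ≤ E.nm k w := nrm_nonneg (by positivity) (E.R_pos k) w
lemma nm_neg (k : ℕ) (w : E.G) : E.nm k (-w) = E.nm k w := nrm_neg _ _ w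
lemma nm_add (k : ℕ) (w w' : E.G) : E.nm k (w + w') ≤ E.nm k w + E.nm k w' :=
  nrm_add (by positivity) (E.R_pos k) w w'

lemma R_succ (hs : 0 < s) (k : ℕ) : 2 * E.R k ≤ E.R (k + 1) := by
  unfold Env.R Rad
  have h1 : tim s k ≤ tim s (k + 1) := tim_le_tim hs (Nat.le_succ k)
  have hM := E.hM
  have hε := E.hε
  have : 0 ≤ E.M / E.ε * 2 ^ k := by positivity
  calc 2 * (E.M / E.ε * 2 ^ k * tim s k) = 2 * (E.M / E.ε * 2 ^ k) * tim s k := by ring
    _ ≤ 2 * (E.M / E.ε * 2 ^ k) * tim s (k + 1) := mul_le_mul_of_nonneg_left h1 (by positivity)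
    _ = _ := by rw [pow_succ]; ring

lemma nm_succ (hs : 0 < s) (k : ℕ) (w : E.G) : E.nm (k + 1) w ≤ E.nm k w / 2 := by
  unfold Env.nm nrm
  have h1 := n1_nonneg w.1
  have h2 := n1_nonneg w.2
  have hR := E.R_pos k
  have hR1 := E.R_pos (k + 1)
  have hRR := R_succ E hs k
  have e1 : n1 w.1 / E.R (k + 1) ≤ n1 w.1 / E.R k / 2 := by
    rw [div_div]
    exact div_le_div_of_nonneg_left h1 (by positivity) (by linarith)
  have e2 : n1 w.2 / 2 ^ (k + 1) = n1 w.2 / 2 ^ k / 2 := by rw [pow_succ, div_div]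
  rw [e2]; linarith

lemma lipE {k : ℕ} (hk : k ≤ E.K) : Lip (E.nm k) (E.q k) where
  pos := (E.ker k hk).pos
  sym := nm_neg E k
  nn := nm_nonneg E k
  lip := (E.ker k hk).lip

include E in
lemma one_le_C1 : 1 ≤ C1 := by
  have h := (E.ker 0 (Nat.zero_le _)).mom
  have h1 := (E.ker 0 (Nat.zero_le _)).mass
  refine le_trans ?_ h
  rw [← h1]
  refine Finset.sum_le_sum (fun w _ => ?_)
  have hp := (E.ker 0 (Nat.zero_le _)).pos w
  have : 1 ≤ Real.exp (nrm (2 ^ 0) (Rad s E.M E.ε 0) w / 2) := by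
    apply Real.one_le_exp
    exact div_nonneg (nm_nonneg E 0 w) (by norm_num)
  calc E.q 0 w = E.q 0 w * 1 := by ring
    _ ≤ _ := mul_le_mul_of_nonneg_left this hp.le

lemma mom1 {k : ℕ} (hk : k ≤ E.K) : ∑ w, E.q k w * E.nm k w ≤ 2 * C1 := by
  have h := (E.ker k hk).mom
  calc ∑ w, E.q k w * E.nm k w ≤ ∑ w, 2 * (E.q k w * Real.exp (nrm (2 ^ k) (Rad s E.M E.ε k) w / 2)) := by
        refine Finset.sum_le_sum (fun w _ => ?_)
        have hp := (E.ker k hk).pos w
        have e : E.nm k w ≤ 2 * Real.exp (nrm (2 ^ k) (Rad s E.M E.ε k) w / 2) := by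
          have := Real.add_one_le_exp (nrm (2 ^ k) (Rad s E.M E.ε k) w / 2)
          unfold Env.nm Env.R
          linarith
        calc E.q k w * E.nm k w ≤ E.q k w * (2 * Real.exp (nrm (2 ^ k) (Rad s E.M E.ε k) w / 2)) :=
              mul_le_mul_of_nonneg_left e hp.le
          _ = _ := by ring
    _ = 2 * ∑ w, E.q k w * Real.exp (nrm (2 ^ k) (Rad s E.M E.ε k) w / 2) := by
        rw [Finset.mul_sum]
    _ ≤ 2 * C1 := by linarith

lemma pk_mom (hs : 0 < s) {k m : ℕ} (hk : k + m ≤ E.K) :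
    ∑ w, pk E.q k m w * E.nm (k + m) w ≤ 4 * C1 := by
  have hC := one_le_C1 E
  induction m with
  | zero =>
    have := mom1 E (k := k) (by omega)
    simp only [pk, Nat.add_zero]
    linarith
  | succ m ih =>
    have ih' := ih (by omega)
    have hpos : ∀ z, 0 < pk E.q k m z := pk_pos (fun i _ hi z => E.q_pos (by omega) z)
    have h1 := cv_mom (p := pk E.q k m) (q := E.q (k + (m + 1))) (nm := E.nm (k + (m + 1)))
      (fun z => (hpos z).le) (fun z => (E.q_pos hk z).le)
      (pk_sum (fun i _ hi => E.q_mass (by omega))) (E.q_mass hk) (nm_add E _)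
    have h2 := mom1 E hk
    have h3 : ∑ w, pk E.q k m w * E.nm (k + (m + 1)) w ≤
        ∑ w, pk E.q k m w * (E.nm (k + m) w / 2) :=
      Finset.sum_le_sum (fun w _ => mul_le_mul_of_nonneg_left
        (nm_succ E hs (k + m) w) (hpos w).le)
    have h4 : ∑ w, pk E.q k m w * (E.nm (k + m) w / 2) =
        (∑ w, pk E.q k m w * E.nm (k + m) w) / 2 := by
      rw [Finset.sum_div]
      exact Finset.sum_congr rfl (fun w _ => by ring)
    rw [h4] at h3
    rw [pk]
    linarith

lemma pk_lip {k m : ℕ} (hk : k + m ≤ E.K) : Lip (E.nm (k + m)) (pk E.q k m) where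
  pos := pk_pos (fun i _ hi z => E.q_pos (by omega) z)
  sym := nm_neg E _
  nn := nm_nonneg E _
  lip := by
    cases m with
    | zero => exact (E.ker k (by omega)).lip
    | succ m =>
      have hpos : ∀ z, 0 < pk E.q k m z := pk_pos (fun i _ hi z => E.q_pos (by omega) z)
      intro z w
      rw [pk]
      exact cvlip (lipE E hk) (fun z => (hpos z).le) z w

/-- half of the mass of the product kernel is at distance at most `8 C1` -/
lemma pk_half (hs : 0 < s) {k m : ℕ} (hk : k + m ≤ E.K) :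
    1 / 2 ≤ ∑ w ∈ univ.filter (fun w => E.nm (k + m) w ≤ 8 * C1), pk E.q k m w := by
  classical
  have hC := one_le_C1 E
  have hpos : ∀ z, 0 < pk E.q k m z := pk_pos (fun i _ hi z => E.q_pos (by omega) z)
  have h1 : ∑ z, pk E.q k m z = 1 := pk_sum (fun i _ hi => E.q_mass (by omega))
  have h2 := pk_mom E hs hk
  rw [← Finset.sum_filter_add_sum_filter_not univ (fun w => E.nm (k + m) w ≤ 8 * C1)] at h1
  have h3 : (8 * C1) * ∑ w ∈ univ.filter (fun w => ¬ E.nm (k + m) w ≤ 8 * C1), pk E.q k m w ≤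
      ∑ w, pk E.q k m w * E.nm (k + m) w := by
    rw [Finset.mul_sum]
    refine le_trans (Finset.sum_le_sum (fun w hw => ?_))
      (Finset.sum_le_sum_of_subset_of_nonneg (Finset.filter_subset _ _)
        (fun w _ _ => mul_nonneg (hpos w).le (nm_nonneg E _ w)))
    have := not_le.mp (Finset.mem_filter.mp hw).2
    rw [mul_comm]
    exact mul_le_mul_of_nonneg_left this.le (hpos w).le
  have h4 : (8 * C1) * ∑ w ∈ univ.filter (fun w => ¬ E.nm (k + m) w ≤ 8 * C1), pk E.q k m w ≤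
      (8 * C1) * (1 / 2) := by linarith
  have h5 := le_of_mul_le_mul_left h4 (by positivity)
  linarith

lemma pk_kappa (hs : 0 < s) {k m : ℕ} (hk : k + m ≤ E.K) :
    1 / 2 * Real.exp (-(2 * (8 * C1))) ≤
      ∑ w, pk E.q k m w * Real.exp (-(2 * E.nm (k + m) w)) := by
  classical
  have hpos : ∀ z, 0 < pk E.q k m z := pk_pos (fun i _ hi z => E.q_pos (by omega) z)
  have h1 := mul_le_mul_of_nonneg_right (pk_half E hs hk) (Real.exp_pos (-(2 * (8 * C1)))).le
  refine le_trans h1 ?_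
  rw [Finset.sum_mul]
  refine le_trans (Finset.sum_le_sum (fun w hw => ?_))
    (Finset.sum_le_sum_of_subset_of_nonneg (Finset.filter_subset _ _)
      (fun w _ _ => mul_nonneg (hpos w).le (Real.exp_pos _).le))
  have := (Finset.mem_filter.mp hw).2
  exact mul_le_mul_of_nonneg_left (Real.exp_le_exp.2 (by linarith)) (hpos w).le

end env

end KD.Pk
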