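import Pool.Agent.Helper37.KD.Basic

/-! KD Part I, section I.4: the two local variance lemmas (N) and (F), on a general finite
abelian group with a symmetric gauge `nm`. -/

set_option linter.unusedSectionVars false

namespace KD.VarL

open Finset

variable {G : Type*} [Fintype G] [AddCommGroup G]

/-- unnormalised conditional variance at `z` -/
noncomputable def VV (Q u b : G → ℝ) (z : G) : ℝ :=
  ∑ w, Q (z - w) * u w * (b w / u w - cv Q b z / cv Q u z) ^ 2

/-- log-Lipschitz kernels with respect to a symmetric gauge -/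
structure Lip (nm : G → ℝ) (Q : G → ℝ) : Prop where
  pos : ∀ z, 0 < Q z
  sym : ∀ w, nm (-w) = nm w
  nn : ∀ w, 0 ≤ nm w
  lip : ∀ z w, Q (z + w) ≤ Real.exp (nm w) * Q z

/-- a density `u ≥ 0` dominating `b` -/
structure Dom (u b : G → ℝ) : Prop where
  nn : ∀ z, 0 ≤ u z
  dom : ∀ z, u z = 0 → b z = 0

lemma Dom.mul_div {u b : G → ℝ} (h : Dom u b) (w : G) : u w * (b w / u w) = b w := by
  by_cases hu : u w = 0
  · rw [hu, h.dom w hu]; simp
  · field_simp

lemma Dom.mul_div_sq {u b : G → ℝ} (h : Dom u b) (w : G) :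
    u w * (b w / u w) ^ 2 = b w ^ 2 / u w := by
  by_cases hu : u w = 0
  · rw [hu, h.dom w hu]; simp
  · field_simp

variable {nm Q u b : G → ℝ}

lemma Lip.lip' (hQ : Lip nm Q) (z w : G) : Q z ≤ Real.exp (nm w) * Q (z + w) := by
  have := hQ.lip (z + w) (-w)
  rwa [hQ.sym, add_neg_cancel_right] at this

lemma cvlip (hQ : Lip nm Q) (hu : ∀ z, 0 ≤ u z) (z w : G) :
    cv Q u (z + w) ≤ Real.exp (nm w) * cv Q u z := by
  rw [cv_shift_ker]
  unfold cv
  rw [Finset.mul_sum]
  refine Finset.sum_le_sum (fun y _ => ?_)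
  calc Q (y + w) * u (z - y) ≤ (Real.exp (nm w) * Q y) * u (z - y) :=
        mul_le_mul_of_nonneg_right (hQ.lip y w) (hu _)
    _ = _ := by ring

lemma cvlip' (hQ : Lip nm Q) (hu : ∀ z, 0 ≤ u z) (z w : G) :
    cv Q u z ≤ Real.exp (nm w) * cv Q u (z + w) := by
  have := cvlip hQ hu (z + w) (-w)
  rwa [hQ.sym, add_neg_cancel_right] at this

lemma VV_nonneg (hQ : Lip nm Q) (h : Dom u b) (z : G) : 0 ≤ VV Q u b z :=
  Finset.sum_nonneg (fun w _ =>
    mul_nonneg (mul_nonneg (hQ.pos _).le (h.nn w)) (sq_nonneg _))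

lemma sum_Qu (z : G) : ∑ w, Q (z - w) * u w = cv Q u z := (cv_apply' Q u z).symm

/-- first moment identity -/
lemma sum_Qub (h : Dom u b) (z : G) : ∑ w, Q (z - w) * u w * (b w / u w) = cv Q b z := by
  rw [cv_apply']
  refine Finset.sum_congr rfl (fun w _ => ?_)
  rw [mul_assoc, h.mul_div]

/-- expansion of the quadratic form around an arbitrary constant -/
lemma quad_exp (h : Dom u b) (z : G) (c : ℝ) :
    ∑ w, Q (z - w) * u w * (b w / u w - c) ^ 2 =
      (∑ w, Q (z - w) * (b w ^ 2 / u w)) - 2 * c * cv Q b z + c ^ 2 * cv Q u z := by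
  have e : ∀ w, Q (z - w) * u w * (b w / u w - c) ^ 2 =
      Q (z - w) * (b w ^ 2 / u w) - 2 * c * (Q (z - w) * u w * (b w / u w)) +
        c ^ 2 * (Q (z - w) * u w) := by
    intro w
    rw [← h.mul_div_sq w]; ring
  simp only [e]
  rw [Finset.sum_add_distrib, Finset.sum_sub_distrib, ← Finset.mul_sum, ← Finset.mul_sum,
    sum_Qub h, sum_Qu (Q := Q) (u := u) z]

lemma VV_eq (h : Dom u b) (hub : ∀ z, 0 < cv Q u z) (z : G) :
    VV Q u b z = (∑ w, Q (z - w) * (b w ^ 2 / u w)) - cv Q b z ^ 2 / cv Q u z := by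
  unfold VV
  rw [quad_exp h]
  have := (hub z).ne'
  field_simp
  ring

/-- minimality of the mean -/
lemma VV_le (h : Dom u b) (hub : ∀ z, 0 < cv Q u z) (z : G) (c : ℝ) :
    VV Q u b z ≤ ∑ w, Q (z - w) * u w * (b w / u w - c) ^ 2 := by
  rw [VV_eq h hub, quad_exp h]
  have h1 := hub z
  have : 0 ≤ cv Q u z * (c - cv Q b z / cv Q u z) ^ 2 := mul_nonneg h1.le (sq_nonneg _)
  have e : cv Q u z * (c - cv Q b z / cv Q u z) ^ 2 =
      c ^ 2 * cv Q u z - 2 * c * cv Q b z + cv Q b z ^ 2 / cv Q u z := by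
    have := h1.ne'
    field_simp
    ring
  linarith

/-- variance decomposition -/
lemma sum_VV (h : Dom u b) (hub : ∀ z, 0 < cv Q u z) (hQ1 : ∑ z, Q z = 1) :
    ∑ z, VV Q u b z = Qf b u - Qf (cv Q b) (cv Q u) := by
  simp only [VV_eq h hub]
  rw [Finset.sum_sub_distrib]
  congr 1
  rw [Finset.sum_comm]
  unfold Qf
  refine Finset.sum_congr rfl (fun w _ => ?_)
  rw [← Finset.sum_mul, sum_shift_sub, hQ1, one_mul]

/-- `VV` is log-Lipschitz -/
lemma VV_lip (hQ : Lip nm Q) (h : Dom u b) (hub : ∀ z, 0 < cv Q u z) (z l : G) :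
    VV Q u b (z + l) ≤ Real.exp (nm l) * VV Q u b z := by
  refine le_trans (VV_le h hub (z + l) (cv Q b z / cv Q u z)) ?_
  unfold VV
  rw [Finset.mul_sum]
  refine Finset.sum_le_sum (fun w _ => ?_)
  have h1 : Q (z + l - w) ≤ Real.exp (nm l) * Q (z - w) := by
    have := hQ.lip (z - w) l
    rwa [show z - w + l = z + l - w by abel] at this
  calc Q (z + l - w) * u w * (b w / u w - cv Q b z / cv Q u z) ^ 2
      ≤ (Real.exp (nm l) * Q (z - w)) * u w * (b w / u w - cv Q b z / cv Q u z) ^ 2 := by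
        apply mul_le_mul_of_nonneg_right _ (sq_nonneg _)
        exact mul_le_mul_of_nonneg_right h1 (h.nn w)
    _ = _ := by ring

/-- normalised variance and its log-Lipschitz bound -/
lemma V_lip (hQ : Lip nm Q) (h : Dom u b) (hub : ∀ z, 0 < cv Q u z) (z l : G) :
    VV Q u b z / cv Q u z ≤ Real.exp (2 * nm l) * (VV Q u b (z + l) / cv Q u (z + l)) := by
  have h1 : VV Q u b z ≤ Real.exp (nm l) * VV Q u b (z + l) := by
    have := VV_lip hQ h hub (z + l) (-l)
    rwa [hQ.sym, add_neg_cancel_right] at this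
  have h2 := cvlip hQ h.nn z l
  have hz := hub z
  have hzl := hub (z + l)
  have hV := VV_nonneg hQ h (z + l)
  rw [two_mul, Real.exp_add]
  rw [div_le_iff₀ hz]
  have e : Real.exp (nm l) * Real.exp (nm l) * (VV Q u b (z + l) / cv Q u (z + l)) * cv Q u z =
      (Real.exp (nm l) * VV Q u b (z + l)) * ((Real.exp (nm l) * cv Q u z) / cv Q u (z + l)) := by
    ring
  rw [e]
  have h3 : 1 ≤ (Real.exp (nm l) * cv Q u z) / cv Q u (z + l) := by
    rw [le_div_iff₀ hzl, one_mul]; exact h2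
  calc VV Q u b z ≤ Real.exp (nm l) * VV Q u b (z + l) := h1
    _ = (Real.exp (nm l) * VV Q u b (z + l)) * 1 := by ring
    _ ≤ _ := mul_le_mul_of_nonneg_left h3 (by positivity)

/-- constant of the near estimate -/
noncomputable def cN (x : ℝ) : ℝ := Real.exp (2 * x) * (Real.exp x - 1) ^ 2

lemma cN_nonneg (x : ℝ) : 0 ≤ cN x := by unfold cN; positivity

lemma cN_mono {x y : ℝ} (hx : 0 ≤ x) (h : x ≤ y) : cN x ≤ cN y := by
  unfold cN
  have h1 : Real.exp (2 * x) ≤ Real.exp (2 * y) := Real.exp_le_exp.2 (by linarith)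
  have h2 : 0 ≤ Real.exp x - 1 := by linarith [Real.add_one_le_exp x]
  have h3 : Real.exp x - 1 ≤ Real.exp y - 1 := by linarith [Real.exp_le_exp.2 h]
  exact mul_le_mul h1 (pow_le_pow_left₀ h2 h3 2) (by positivity) (by positivity)

/-- difference of the averaged ratios -/
lemma ratio_diff (hQ : Lip nm Q) (h : Dom u b) (hub : ∀ z, 0 < cv Q u z) (z l : G) :
    cv Q u z * (cv Q b (z + l) / cv Q u (z + l) - cv Q b z / cv Q u z) ^ 2 ≤
      cN (nm l) * VV Q u b z := by
  have hz := hub z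
  have hzl := hub (z + l)
  set x := cv Q b z / cv Q u z with hx
  set e := Real.exp (nm l) with he
  have he1 : 1 ≤ e := Real.one_le_exp (hQ.nn l)
  have he0 : 0 < e := Real.exp_pos _
  -- the kernel difference
  have hk : ∀ w, |Q (z + l - w) - Q (z - w)| ≤ (e - 1) * Q (z - w) := by
    intro w
    have h1 := hQ.lip (z - w) l
    have h2 := hQ.lip' (z - w) l
    rw [show z - w + l = z + l - w by abel, ← he] at h1 h2
    have hp := hQ.pos (z - w)
    have hp2 := hQ.pos (z + l - w)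
    rw [abs_le]
    constructor
    · -- Q (z+l-w) ≥ Q(z-w)/e ≥ (2 - e) Q(z-w)
      have h3 : Q (z - w) / e ≤ Q (z + l - w) := by
        rw [div_le_iff₀ he0]; linarith
      have h4 : (2 - e) * Q (z - w) ≤ Q (z - w) / e := by
        rw [le_div_iff₀ he0]
        nlinarith [sq_nonneg (e - 1)]
      linarith
    · linarith
  have hid : cv Q u (z + l) * (cv Q b (z + l) / cv Q u (z + l) - x) =
      ∑ w, (Q (z + l - w) - Q (z - w)) * (u w * (b w / u w - x)) := by
    have e1 : ∑ w, Q (z + l - w) * (u w * (b w / u w - x)) =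
        cv Q b (z + l) - x * cv Q u (z + l) := by
      rw [← sum_Qub (Q := Q) h (z + l), ← sum_Qu (Q := Q) (u := u) (z + l), Finset.mul_sum,
        ← Finset.sum_sub_distrib]
      exact Finset.sum_congr rfl (fun w _ => by ring)
    have e2 : ∑ w, Q (z - w) * (u w * (b w / u w - x)) = 0 := by
      have : ∑ w, Q (z - w) * (u w * (b w / u w - x)) = cv Q b z - x * cv Q u z := by
        rw [← sum_Qub (Q := Q) h z, ← sum_Qu (Q := Q) (u := u) z, Finset.mul_sum,
          ← Finset.sum_sub_distrib]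
        exact Finset.sum_congr rfl (fun w _ => by ring)
      rw [this, hx]
      have := hz.ne'
      field_simp
      ring
    simp only [sub_mul]
    rw [Finset.sum_sub_distrib, e1, e2, sub_zero, mul_sub]
    have := hzl.ne'
    field_simp
  -- Cauchy-Schwarz
  have hcs : (∑ w, (Q (z + l - w) - Q (z - w)) * (u w * (b w / u w - x))) ^ 2 ≤
      (e - 1) ^ 2 * (cv Q u z * VV Q u b z) := by
    have h1 : |∑ w, (Q (z + l - w) - Q (z - w)) * (u w * (b w / u w - x))| ≤
        (e - 1) * ∑ w, Q (z - w) * u w * |b w / u w - x| := by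
      refine le_trans (Finset.abs_sum_le_sum_abs _ _) ?_
      rw [Finset.mul_sum]
      refine Finset.sum_le_sum (fun w _ => ?_)
      rw [abs_mul, abs_mul, abs_of_nonneg (h.nn w)]
      calc |Q (z + l - w) - Q (z - w)| * (u w * |b w / u w - x|)
          ≤ ((e - 1) * Q (z - w)) * (u w * |b w / u w - x|) :=
            mul_le_mul_of_nonneg_right (hk w) (mul_nonneg (h.nn w) (abs_nonneg _))
        _ = _ := by ring
    have h2 : (∑ w, Q (z - w) * u w * |b w / u w - x|) ^ 2 ≤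
        (∑ w, Q (z - w) * u w) * ∑ w, Q (z - w) * u w * |b w / u w - x| ^ 2 := by
      have := Finset.sum_mul_sq_le_sq_mul_sq Finset.univ
        (fun w => √(Q (z - w) * u w)) (fun w => √(Q (z - w) * u w) * |b w / u w - x|)
      have hn : ∀ w, 0 ≤ Q (z - w) * u w := fun w => mul_nonneg (hQ.pos _).le (h.nn w)
      have e1 : ∀ w, √(Q (z - w) * u w) * (√(Q (z - w) * u w) * |b w / u w - x|) =
          Q (z - w) * u w * |b w / u w - x| := fun w => by
        rw [← mul_assoc, Real.mul_self_sqrt (hn w)]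
      have e2 : ∀ w, √(Q (z - w) * u w) ^ 2 = Q (z - w) * u w := fun w => Real.sq_sqrt (hn w)
      simp only [e1, mul_pow, e2] at this
      exact this
    rw [sum_Qu] at h2
    have h3 : ∑ w, Q (z - w) * u w * |b w / u w - x| ^ 2 = VV Q u b z := by
      unfold VV
      exact Finset.sum_congr rfl (fun w _ => by rw [sq_abs])
    rw [h3] at h2
    have h4 : (∑ w, (Q (z + l - w) - Q (z - w)) * (u w * (b w / u w - x))) ^ 2 ≤
        ((e - 1) * ∑ w, Q (z - w) * u w * |b w / u w - x|) ^ 2 := by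
      rw [← sq_abs]
      exact pow_le_pow_left₀ (abs_nonneg _) h1 2
    calc _ ≤ ((e - 1) * ∑ w, Q (z - w) * u w * |b w / u w - x|) ^ 2 := h4
      _ = (e - 1) ^ 2 * (∑ w, Q (z - w) * u w * |b w / u w - x|) ^ 2 := by ring
      _ ≤ _ := mul_le_mul_of_nonneg_left h2 (sq_nonneg _)
  rw [← hid] at hcs
  have hlow := cvlip' hQ h.nn z l
  rw [← he] at hlow
  set y := cv Q b (z + l) / cv Q u (z + l) - x with hy
  -- ub(z)^2 y^2 ≤ e^2 ub(z+l)^2 y^2
  have h5 : (cv Q u z) ^ 2 * y ^ 2 ≤ e ^ 2 * (cv Q u (z + l) * y) ^ 2 := by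
    have : (cv Q u z) ^ 2 ≤ (e * cv Q u (z + l)) ^ 2 := pow_le_pow_left₀ hz.le hlow 2
    calc (cv Q u z) ^ 2 * y ^ 2 ≤ (e * cv Q u (z + l)) ^ 2 * y ^ 2 :=
          mul_le_mul_of_nonneg_right this (sq_nonneg _)
      _ = _ := by ring
  have h6 : e ^ 2 * (cv Q u (z + l) * y) ^ 2 ≤ e ^ 2 * ((e - 1) ^ 2 * (cv Q u z * VV Q u b z)) :=
    mul_le_mul_of_nonneg_left hcs (sq_nonneg _)
  have h7 : cv Q u z * (cv Q u z * y ^ 2) ≤ cv Q u z * (e ^ 2 * (e - 1) ^ 2 * VV Q u b z) := by
    nlinarith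
  have h8 := le_of_mul_le_mul_left h7 hz
  have h9 : cN (nm l) = e ^ 2 * (e - 1) ^ 2 := by
    unfold cN
    rw [two_mul, Real.exp_add, ← he]; ring
  rw [h9]
  exact h8

/-- (N) near estimate -/
theorem near (hQ : Lip nm Q) (h : Dom u b) (hub : ∀ z, 0 < cv Q u z) (hQ1 : ∑ z, Q z = 1)
    (l : G) :
    ∑ z, min (cv Q u z) (cv Q u (z + l)) *
      (cv Q b (z + l) / cv Q u (z + l) - cv Q b z / cv Q u z) ^ 2 ≤
      cN (nm l) * (Qf b u - Qf (cv Q b) (cv Q u)) := by
  rw [← sum_VV h hub hQ1, Finset.mul_sum]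
  refine Finset.sum_le_sum (fun z _ => ?_)
  refine le_trans ?_ (ratio_diff hQ h hub z l)
  exact mul_le_mul_of_nonneg_right (min_le_left _ _) (sq_nonneg _)

/-- comparison of `u` and `cv Q u` on the variance -/
lemma sum_uV (hQ : Lip nm Q) (h : Dom u b) (hub : ∀ z, 0 < cv Q u z) {κ : ℝ}
    (hκ : κ ≤ ∑ w, Q w * Real.exp (-(2 * nm w))) :
    κ * ∑ z, u z * (VV Q u b z / cv Q u z) ≤ ∑ z, VV Q u b z := by
  have h0 : 0 ≤ ∑ z, u z * (VV Q u b z / cv Q u z) :=
    Finset.sum_nonneg (fun z _ => mul_nonneg (h.nn z) (div_nonneg (VV_nonneg hQ h z) (hub z).le))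
  refine le_trans (mul_le_mul_of_nonneg_right hκ h0) ?_
  have e1 : ∑ z, VV Q u b z = ∑ w, Q w * ∑ z, u z * (VV Q u b (z + w) / cv Q u (z + w)) := by
    have : ∀ z, VV Q u b z = ∑ w, Q w * (u (z - w) * (VV Q u b z / cv Q u z)) := by
      intro z
      have h1 := (hub z).ne'
      have : ∑ w, Q w * (u (z - w) * (VV Q u b z / cv Q u z)) =
          cv Q u z * (VV Q u b z / cv Q u z) := by
        unfold cv
        rw [Finset.sum_mul]
        exact Finset.sum_congr rfl (fun w _ => by ring)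
      rw [this]; field_simp
    calc ∑ z, VV Q u b z = ∑ z, ∑ w, Q w * (u (z - w) * (VV Q u b z / cv Q u z)) :=
          Finset.sum_congr rfl (fun z _ => this z)
      _ = ∑ w, ∑ z, Q w * (u (z - w) * (VV Q u b z / cv Q u z)) := Finset.sum_comm
      _ = _ := by
        refine Finset.sum_congr rfl (fun w _ => ?_)
        rw [← Finset.mul_sum]
        congr 1
        rw [← sum_shift (fun z => u (z - w) * (VV Q u b z / cv Q u z)) w]
        exact Finset.sum_congr rfl (fun z _ => by rw [add_sub_cancel_right])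
  rw [e1, Finset.sum_mul]
  refine Finset.sum_le_sum (fun w _ => ?_)
  rw [mul_assoc]
  apply mul_le_mul_of_nonneg_left _ (hQ.pos w).le
  rw [Finset.mul_sum]
  refine Finset.sum_le_sum (fun z _ => ?_)
  have h1 := V_lip hQ h hub z w
  have h2 : Real.exp (-(2 * nm w)) * (VV Q u b z / cv Q u z) ≤
      VV Q u b (z + w) / cv Q u (z + w) := by
    have h3 := mul_le_mul_of_nonneg_left h1 (Real.exp_pos (-(2 * nm w))).le
    rwa [← mul_assoc, ← Real.exp_add, neg_add_cancel, Real.exp_zero, one_mul] at h3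
  calc Real.exp (-(2 * nm w)) * (u z * (VV Q u b z / cv Q u z))
      = u z * (Real.exp (-(2 * nm w)) * (VV Q u b z / cv Q u z)) := by ring
    _ ≤ _ := mul_le_mul_of_nonneg_left h2 (h.nn z)

/-- distance of the ratio to its average -/
lemma sum_ratio (hQ : Lip nm Q) (h : Dom u b) (hub : ∀ z, 0 < cv Q u z) (hQ1 : ∑ z, Q z = 1)
    {κ L : ℝ} (hκ0 : 0 < κ) (hκ : κ ≤ ∑ w, Q w * Real.exp (-(2 * nm w)))
    (_hL : 0 ≤ L)
    (hhalf : 1 / 2 ≤ ∑ w ∈ univ.filter (fun w => nm w ≤ L), Q w) :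
    ∑ z, u z * (b z / u z - cv Q b z / cv Q u z) ^ 2 ≤
      (4 + 4 * cN L / κ) * (Qf b u - Qf (cv Q b) (cv Q u)) := by
  classical
  set A := ∑ z, u z * (b z / u z - cv Q b z / cv Q u z) ^ 2 with hA
  set S := ∑ z, VV Q u b z with hS
  have hA0 : 0 ≤ A := Finset.sum_nonneg (fun z _ => mul_nonneg (h.nn z) (sq_nonneg _))
  have hSeq : S = Qf b u - Qf (cv Q b) (cv Q u) := sum_VV h hub hQ1
  rw [← hSeq]
  have hS0 : 0 ≤ S := Finset.sum_nonneg (fun z _ => VV_nonneg hQ h z)
  have h1 : 1 / 2 * A ≤ ∑ w ∈ univ.filter (fun w => nm w ≤ L), Q w * A := by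
    rw [← Finset.sum_mul]
    exact mul_le_mul_of_nonneg_right hhalf hA0
  have h2 : ∀ w, nm w ≤ L → A ≤ 2 * (∑ z, u z * (b z / u z - cv Q b (z + w) / cv Q u (z + w)) ^ 2) +
      2 * (cN L / κ * S) := by
    intro w hw
    have h3 : ∑ z, u z * (cv Q b (z + w) / cv Q u (z + w) - cv Q b z / cv Q u z) ^ 2 ≤
        cN L / κ * S := by
      have h4 : ∀ z, u z * (cv Q b (z + w) / cv Q u (z + w) - cv Q b z / cv Q u z) ^ 2 ≤
          cN L * (u z * (VV Q u b z / cv Q u z)) := by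
        intro z
        have h5 := ratio_diff hQ h hub z w
        have hz := hub z
        have h6 : (cv Q b (z + w) / cv Q u (z + w) - cv Q b z / cv Q u z) ^ 2 ≤
            cN (nm w) * (VV Q u b z / cv Q u z) := by
          rw [← mul_div_assoc, le_div_iff₀ hz]
          linarith
        have h7 : cN (nm w) * (VV Q u b z / cv Q u z) ≤ cN L * (VV Q u b z / cv Q u z) :=
          mul_le_mul_of_nonneg_right (cN_mono (hQ.nn w) hw)
            (div_nonneg (VV_nonneg hQ h z) hz.le)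
        calc _ ≤ u z * (cN L * (VV Q u b z / cv Q u z)) :=
              mul_le_mul_of_nonneg_left (le_trans h6 h7) (h.nn z)
          _ = _ := by ring
      refine le_trans (Finset.sum_le_sum (fun z _ => h4 z)) ?_
      rw [← Finset.mul_sum]
      have h8 := sum_uV hQ h hub hκ
      rw [← hS] at h8
      have h9 : ∑ z, u z * (VV Q u b z / cv Q u z) ≤ S / κ := by
        rw [le_div_iff₀ hκ0]; linarith
      calc cN L * ∑ z, u z * (VV Q u b z / cv Q u z) ≤ cN L * (S / κ) :=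
            mul_le_mul_of_nonneg_left h9 (cN_nonneg L)
        _ = _ := by ring
    have h10 : A ≤ ∑ z, (2 * (u z * (b z / u z - cv Q b (z + w) / cv Q u (z + w)) ^ 2) +
        2 * (u z * (cv Q b (z + w) / cv Q u (z + w) - cv Q b z / cv Q u z) ^ 2)) := by
      rw [hA]
      refine Finset.sum_le_sum (fun z _ => ?_)
      have hu := h.nn z
      have : (b z / u z - cv Q b z / cv Q u z) ^ 2 ≤
          2 * (b z / u z - cv Q b (z + w) / cv Q u (z + w)) ^ 2 +
          2 * (cv Q b (z + w) / cv Q u (z + w) - cv Q b z / cv Q u z) ^ 2 := by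
        nlinarith [sq_nonneg ((b z / u z - cv Q b (z + w) / cv Q u (z + w)) -
          (cv Q b (z + w) / cv Q u (z + w) - cv Q b z / cv Q u z))]
      nlinarith [mul_le_mul_of_nonneg_left this hu]
    rw [Finset.sum_add_distrib, ← Finset.mul_sum, ← Finset.mul_sum] at h10
    linarith
  have h11 : ∑ w ∈ univ.filter (fun w => nm w ≤ L), Q w * A ≤
      ∑ w, Q w * (2 * (∑ z, u z * (b z / u z - cv Q b (z + w) / cv Q u (z + w)) ^ 2) +
        2 * (cN L / κ * S)) := by
    have hnn : ∀ w, 0 ≤ Q w * (2 * (∑ z, u z * (b z / u z - cv Q b (z + w) / cv Q u (z + w)) ^ 2) +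
        2 * (cN L / κ * S)) := by
      intro w
      apply mul_nonneg (hQ.pos w).le
      have e1 : 0 ≤ ∑ z, u z * (b z / u z - cv Q b (z + w) / cv Q u (z + w)) ^ 2 :=
        Finset.sum_nonneg (fun z _ => mul_nonneg (h.nn z) (sq_nonneg _))
      have e2 : 0 ≤ cN L / κ * S := mul_nonneg (div_nonneg (cN_nonneg L) hκ0.le) hS0
      linarith
    refine le_trans (Finset.sum_le_sum (fun w hw => ?_))
      (Finset.sum_le_sum_of_subset_of_nonneg (Finset.filter_subset _ _) (fun w _ _ => hnn w))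
    exact mul_le_mul_of_nonneg_left (h2 w (Finset.mem_filter.mp hw).2) (hQ.pos w).le
  have h12 : ∑ w, Q w * (∑ z, u z * (b z / u z - cv Q b (z + w) / cv Q u (z + w)) ^ 2) = S := by
    have : ∀ w, Q w * (∑ z, u z * (b z / u z - cv Q b (z + w) / cv Q u (z + w)) ^ 2) =
        ∑ z, Q w * u (z - w) * (b (z - w) / u (z - w) - cv Q b z / cv Q u z) ^ 2 := by
      intro w
      rw [← sum_shift (fun z => Q w * u (z - w) *
        (b (z - w) / u (z - w) - cv Q b z / cv Q u z) ^ 2) w, Finset.mul_sum]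
      refine Finset.sum_congr rfl (fun z _ => ?_)
      rw [add_sub_cancel_right]; ring
    simp only [this]
    rw [Finset.sum_comm, hS]
    refine Finset.sum_congr rfl (fun z _ => ?_)
    unfold VV
    refine Fintype.sum_equiv (Equiv.subLeft z) _ _ (fun w => ?_)
    simp [Equiv.subLeft]
  have h13 : ∑ w, Q w * (2 * (∑ z, u z * (b z / u z - cv Q b (z + w) / cv Q u (z + w)) ^ 2) +
        2 * (cN L / κ * S)) = 2 * S + 2 * (cN L / κ * S) := by
    have : ∀ w, Q w * (2 * (∑ z, u z * (b z / u z - cv Q b (z + w) / cv Q u (z + w)) ^ 2) +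
        2 * (cN L / κ * S)) =
        2 * (Q w * (∑ z, u z * (b z / u z - cv Q b (z + w) / cv Q u (z + w)) ^ 2)) +
        Q w * (2 * (cN L / κ * S)) := fun w => by ring
    simp only [this]
    rw [Finset.sum_add_distrib, ← Finset.mul_sum, ← Finset.sum_mul, h12, hQ1, one_mul]
  rw [h13] at h11
  have h14 : (4 + 4 * cN L / κ) * S = 2 * (2 * S + 2 * (cN L / κ * S)) := by ring
  rw [h14]
  linarith

/-- (F) far estimate -/
theorem far (hQ : Lip nm Q) (h : Dom u b) (hub : ∀ z, 0 < cv Q u z) (hQ1 : ∑ z, Q z = 1)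
    {κ L : ℝ} (hκ0 : 0 < κ) (hκ : κ ≤ ∑ w, Q w * Real.exp (-(2 * nm w)))
    (hL : 0 ≤ L)
    (hhalf : 1 / 2 ≤ ∑ w ∈ univ.filter (fun w => nm w ≤ L), Q w) (l : G) :
    ∑ z, min (u z) (u (z + l)) * (b (z + l) / u (z + l) - b z / u z) ^ 2 ≤
      (3 * (cN (nm l) / κ) + 6 * (4 + 4 * cN L / κ)) * (Qf b u - Qf (cv Q b) (cv Q u)) := by
  have hS : ∑ z, VV Q u b z = Qf b u - Qf (cv Q b) (cv Q u) := sum_VV h hub hQ1
  have hr := sum_ratio hQ h hub hQ1 hκ0 hκ hL hhalf
  set A := ∑ z, u z * (b z / u z - cv Q b z / cv Q u z) ^ 2 with hA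
  set S := Qf b u - Qf (cv Q b) (cv Q u) with hSd
  have h3 : ∑ z, u z * (cv Q b (z + l) / cv Q u (z + l) - cv Q b z / cv Q u z) ^ 2 ≤
      cN (nm l) / κ * S := by
    have h4 : ∀ z, u z * (cv Q b (z + l) / cv Q u (z + l) - cv Q b z / cv Q u z) ^ 2 ≤
        cN (nm l) * (u z * (VV Q u b z / cv Q u z)) := by
      intro z
      have h5 := ratio_diff hQ h hub z l
      have hz := hub z
      have h6 : (cv Q b (z + l) / cv Q u (z + l) - cv Q b z / cv Q u z) ^ 2 ≤
          cN (nm l) * (VV Q u b z / cv Q u z) := by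
        rw [← mul_div_assoc, le_div_iff₀ hz]
        linarith
      calc _ ≤ u z * (cN (nm l) * (VV Q u b z / cv Q u z)) :=
            mul_le_mul_of_nonneg_left h6 (h.nn z)
        _ = _ := by ring
    refine le_trans (Finset.sum_le_sum (fun z _ => h4 z)) ?_
    rw [← Finset.mul_sum]
    have h8 := sum_uV hQ h hub hκ
    rw [hS] at h8
    have h9 : ∑ z, u z * (VV Q u b z / cv Q u z) ≤ S / κ := by
      rw [le_div_iff₀ hκ0]; linarith
    calc cN (nm l) * ∑ z, u z * (VV Q u b z / cv Q u z) ≤ cN (nm l) * (S / κ) :=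
          mul_le_mul_of_nonneg_left h9 (cN_nonneg _)
      _ = _ := by ring
  have hA' : ∑ z, u (z + l) * (b (z + l) / u (z + l) - cv Q b (z + l) / cv Q u (z + l)) ^ 2 = A :=
    sum_shift (fun z => u z * (b z / u z - cv Q b z / cv Q u z) ^ 2) l
  have h4 : ∑ z, min (u z) (u (z + l)) * (b (z + l) / u (z + l) - b z / u z) ^ 2 ≤
      ∑ z, (3 * (u (z + l) * (b (z + l) / u (z + l) - cv Q b (z + l) / cv Q u (z + l)) ^ 2) +
        3 * (u z * (cv Q b (z + l) / cv Q u (z + l) - cv Q b z / cv Q u z) ^ 2) +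
        3 * (u z * (b z / u z - cv Q b z / cv Q u z) ^ 2)) := by
    refine Finset.sum_le_sum (fun z _ => ?_)
    set p := b (z + l) / u (z + l) with hp
    set p' := cv Q b (z + l) / cv Q u (z + l) with hp'
    set r := b z / u z with hr'
    set r' := cv Q b z / cv Q u z with hr''
    have e : (p - r) ^ 2 ≤ 3 * (p - p') ^ 2 + 3 * (p' - r') ^ 2 + 3 * (r - r') ^ 2 := by
      nlinarith [sq_nonneg ((p - p') - (p' - r')), sq_nonneg ((p - p') + (r - r')),
        sq_nonneg ((p' - r') + (r - r'))]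
    set m := min (u z) (u (z + l)) with hm
    have hm0 : 0 ≤ m := le_min (h.nn z) (h.nn _)
    have hm1 : m ≤ u z := min_le_left _ _
    have hm2 : m ≤ u (z + l) := min_le_right _ _
    calc m * (p - r) ^ 2 ≤ m * (3 * (p - p') ^ 2 + 3 * (p' - r') ^ 2 + 3 * (r - r') ^ 2) :=
          mul_le_mul_of_nonneg_left e hm0
      _ = 3 * (m * (p - p') ^ 2) + 3 * (m * (p' - r') ^ 2) + 3 * (m * (r - r') ^ 2) := by ring
      _ ≤ _ := by
        have a1 := mul_le_mul_of_nonneg_right hm2 (sq_nonneg (p - p'))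
        have a2 := mul_le_mul_of_nonneg_right hm1 (sq_nonneg (p' - r'))
        have a3 := mul_le_mul_of_nonneg_right hm1 (sq_nonneg (r - r'))
        linarith
  rw [Finset.sum_add_distrib, Finset.sum_add_distrib, ← Finset.mul_sum, ← Finset.mul_sum,
    ← Finset.mul_sum, hA', ← hA] at h4
  have h5 : (3 * (cN (nm l) / κ) + 6 * (4 + 4 * cN L / κ)) * S =
      3 * (cN (nm l) / κ * S) + 6 * ((4 + 4 * cN L / κ) * S) := by ring
  rw [h5]
  linarith

end KD.VarL
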